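import Pool.Agent.H610.AbcH.Sites

/-!
# Two exponent vectors with congruent products, nearly equal sizes and small distance
-/

set_option autoImplicit false

open Finset

namespace Pool.Agent.H610.AbcH

open Pool.Agent.H390R2.LP

theorem comb {K : ℕ} (s : Fin K → Site (Fin 3) (Fin 3)) (f : Fin K → Fin 3 → ℝ) {ε : ℝ}
    (hε : 0 < ε) : ∃ n0 : ℕ, ∀ n ≥ n0, ∀ (pr : Fin n → Fin K → ℕ) (B m : ℕ),
      (∀ j k, 1 ≤ pr j k) → (∑ j, ∑ k, 2 * Real.log (pr j k) < B) →
      ((2 : ℝ) ^ m * B ≤ Real.exp (n * (∑ k, ((s k).h - (s k).S) - ε))) →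
      ∃ x y : Fin n → Fin K → Fin 3, x ≠ y ∧
        (∏ j, ∏ k, pr j k ^ (x j k : ℕ)) % 2 ^ m = (∏ j, ∏ k, pr j k ^ (y j k : ℕ)) % 2 ^ m ∧
        |∑ j, ∑ k, ((x j k : ℕ) : ℝ) * Real.log (pr j k) -
          ∑ j, ∑ k, ((y j k : ℕ) : ℝ) * Real.log (pr j k)| < 1 ∧
        ∑ j, ∑ k, (f k (x j k) - f k (y j k)) ^ 2 ≤
          n * (∑ k, (s k).E (fun (_ : Unit) => f k) + ε) + 1 := by
  classical
  obtain ⟨n0, hn0⟩ := iid (Fin K → Fin 3) (Fin K → Fin 3) (Fin K) (piSite s)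
    (fun k x => f k (x k)) ε hε
  refine ⟨n0, ?_⟩
  intro n hn pr B m hpr hB hcard
  by_contra hcon
  push Not at hcon
  set L : (Fin n → Fin K → Fin 3) → ℝ := fun x => ∑ j, ∑ k, ((x j k : ℕ) : ℝ) * Real.log (pr j k)
    with hL
  set v : (Fin n → Fin K → Fin 3) → ℕ := fun x => ∏ j, ∏ k, pr j k ^ (x j k : ℕ) with hv
  have hlog : ∀ j k, 0 ≤ Real.log (pr j k) := fun j k =>
    Real.log_nonneg (by exact_mod_cast hpr j k)
  have hL0 : ∀ x, 0 ≤ L x := fun x => sum_nonneg fun j _ => sum_nonneg fun k _ =>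
    mul_nonneg (Nat.cast_nonneg _) (hlog j k)
  have hLB : ∀ x, ⌊L x⌋₊ < B := by
    intro x
    rw [Nat.floor_lt (hL0 x)]
    refine lt_of_le_of_lt (sum_le_sum fun j _ => sum_le_sum fun k _ => ?_) hB
    apply mul_le_mul_of_nonneg_right _ (hlog j k)
    have h1 : (x j k : ℕ) ≤ 2 := by omega
    exact_mod_cast h1
  set S : Fin (2 ^ m) × Fin B → Finset (Fin n → Fin K → Fin 3) := fun c =>
    univ.filter fun x => v x % 2 ^ m = c.1 ∧ ⌊L x⌋₊ = c.2 with hS
  have hcov : ∀ x, (univ.filter fun c => x ∈ S c).card = 1 := by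
    intro x
    rw [card_eq_one]
    refine ⟨(⟨v x % 2 ^ m, Nat.mod_lt _ (by positivity)⟩, ⟨⌊L x⌋₊, hLB x⟩), ?_⟩
    ext c
    simp only [hS, mem_filter, mem_univ, true_and, mem_singleton]
    constructor
    · rintro ⟨h1, h2⟩
      exact Prod.ext (Fin.ext h1.symm) (Fin.ext h2.symm)
    · intro h
      rw [h]
      exact ⟨rfl, rfl⟩
  have hdist : ∀ c, ∀ x ∈ S c, ∀ y ∈ S c, x ≠ y →
      n * (∑ k, (s k).E (fun (_ : Unit) => f k) + ε) + 1 ≤
        ∑ j, ∑ k, (f k (x j k) - f k (y j k)) ^ 2 := by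
    intro c x hx y hy hxy
    simp only [hS, mem_filter, mem_univ, true_and] at hx hy
    refine (hcon x y hxy (hx.1.trans hy.1.symm) ?_).le
    have h1 := (Nat.floor_eq_iff (hL0 x)).1 hx.2
    have h2 := (Nat.floor_eq_iff (hL0 y)).1 hy.2
    show |L x - L y| < 1
    rw [abs_lt]
    constructor <;> linarith [h1.1, h1.2, h2.1, h2.2]
  have key := hn0 n hn (Fin (2 ^ m) × Fin B) S 1
    (n * (∑ k, (s k).E (fun (_ : Unit) => f k) + ε) + 1) one_pos hcov hdist (by
      rw [Fintype.card_prod, Fintype.card_fin, Fintype.card_fin, piSite_h, piSite_S,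
        ← sum_sub_distrib]
      push_cast
      rw [one_mul]
      exact hcard)
  rw [piSite_E] at key
  linarith

/-- the products are different -/
theorem val_inj {ι : Type} [Fintype ι] [DecidableEq ι] {pr : ι → ℕ} (hp : ∀ i, (pr i).Prime)
    (hinj : Function.Injective pr) {x y : ι → ℕ} (h : ∏ i, pr i ^ x i = ∏ i, pr i ^ y i) : x = y := by
  have key : ∀ (x : ι → ℕ) (i : ι), (∏ i, pr i ^ x i).factorization (pr i) = x i := by
    intro x i
    rw [Nat.factorization_prod (fun j _ => pow_ne_zero _ (hp j).ne_zero)]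
    rw [Finsupp.finsetSum_apply, sum_eq_single i]
    · rw [Nat.Prime.factorization_pow (hp i), Finsupp.single_eq_same]
    · intro j _ hj
      rw [Nat.Prime.factorization_pow (hp j), Finsupp.single_apply, if_neg (fun h => hj (hinj h))]
    · intro h; exact absurd (mem_univ i) h
  funext i
  rw [← key x i, ← key y i, h]

end Pool.Agent.H610.AbcH
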