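import Pool.Agent.H610.AbcH.Sel

/-!
# The triples, with all their data
-/

set_option autoImplicit false

open Finset Filter Topology

namespace Pool.Agent.H610.AbcH

open Pool.Agent.H390R2.LP
open Pool.Agent.X2.AbcH (gam H gam_pos one_lt_log_three small_log tendsto_X card_bound)

/-- A family of one-site states: the prime number `k` of each group has size at most
`(k + 1) / D * n`; `f k` gives the distances between the three levels. -/
structure Fam (D Kt : ℕ) (K1 : ℝ) where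
  s : Fin Kt → Site (Fin 3) (Fin 3)
  f : Fin Kt → Fin 3 → ℝ
  hf : ∀ (k : Fin Kt) (a b : Fin 3), a ≠ b →
    Real.log ((((k : ℕ) : ℝ) + 1) / D) + K1 / 2 * (|(((a : ℕ) : ℝ) - ((b : ℕ) : ℝ))| - 1) ≤
      (f k a - f k b) ^ 2

/-- coherence of the family -/
noncomputable def Fam.C {D Kt : ℕ} {K1 : ℝ} (F : Fam D Kt K1) : ℝ := ∑ k, ((F.s k).h - (F.s k).S)

/-- energy of the family -/
noncomputable def Fam.En {D Kt : ℕ} {K1 : ℝ} (F : Fam D Kt K1) : ℝ :=
  ∑ k, (F.s k).E (fun (_ : Unit) => F.f k)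

theorem Fam.En_nonneg {D Kt : ℕ} {K1 : ℝ} (F : Fam D Kt K1) : 0 ≤ F.En :=
  sum_nonneg fun _ _ => site_E_nonneg _ _

/-- the deterministic part: from two exponent vectors to the data -/
theorem data1 {D Kt n n' : ℕ} {K1 : ℝ} (F : Fam D Kt K1) (hn : 1 < n) (hD : 1 ≤ D)
    {pr : Fin n' → Fin Kt → ℕ}
    (hp : ∀ j k, (pr j k).Prime ∧ pr j k ≠ 2 ∧ (pr j k : ℝ) ≤ ((k : ℕ) + 1 : ℝ) / D * n)
    (hinj : Function.Injective (fun i : Fin n' × Fin Kt => pr i.1 i.2))
    {x y : Fin n' → Fin Kt → Fin 3} (hxy : x ≠ y) {m : ℕ} (hm : 1 ≤ m)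
    (hmod : (∏ j, ∏ k, pr j k ^ (x j k : ℕ)) % 2 ^ m = (∏ j, ∏ k, pr j k ^ (y j k : ℕ)) % 2 ^ m)
    (hsize : |∑ j, ∑ k, ((x j k : ℕ) : ℝ) * Real.log (pr j k) -
          ∑ j, ∑ k, ((y j k : ℕ) : ℝ) * Real.log (pr j k)| < 1) {I : ℝ}
    (hI : ∑ j, ∑ k, (F.f k (x j k) - F.f k (y j k)) ^ 2 ≤ I) :
    ∃ (u v : ℕ) (s T R Sg : ℝ), 0 < v ∧ v < u ∧ Nat.Coprime (u - v) v ∧ 0 ≤ s ∧
      (m : ℝ) * Real.log 2 ≤ Real.log u ∧
      2 * Real.log u - 1 ≤ Sg ∧ Sg ≤ 2 * Real.log u ∧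
      Sg ≤ T * Real.log (Kt * n) ∧ Sg ≤ 2 * R ∧ R ≤ Sg ∧
      R ≤ s * Real.log n + I - K1 / 2 * (T - s) ∧
      (∀ Q den : ℝ, 0 < Q → 0 < den → Real.log Q = den → s ≤ R / den + Q) ∧ s ≤ R ∧ 1 < R ∧
      s ≤ ((u - v) * v * u).primeFactors.card ∧
      R ≤ Real.log (gam ((u - v) * v * u)) ∧
      Real.log (gam ((u - v) * v * u)) ≤ R + Real.log u + 1 - m * Real.log 2 := by
  classical
  have hn0 : (1 : ℝ) < n := by exact_mod_cast hn
  have hnp : (0 : ℝ) < n := by linarith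
  have hDR : (1 : ℝ) ≤ D := by exact_mod_cast hD
  have hDp : (0 : ℝ) < D := by linarith
  set ι := Fin n' × Fin Kt with hι
  set q : ι → ℕ := fun i => pr i.1 i.2 with hq
  set X : ι → ℕ := fun i => (x i.1 i.2 : ℕ) with hX
  set Y : ι → ℕ := fun i => (y i.1 i.2 : ℕ) with hY
  have hXY : X ≠ Y := by
    intro h
    apply hxy
    funext j k
    exact Fin.ext (congrFun h (j, k))
  have hXle : ∀ i, X i ≤ 2 := fun i => by
    have := (x i.1 i.2).2
    simp only [hX]; omega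
  have hYle : ∀ i, Y i ≤ 2 := fun i => by
    have := (y i.1 i.2).2
    simp only [hY]; omega
  have hq1 : ∀ i, (q i).Prime ∧ q i ≠ 2 := fun i => ⟨(hp i.1 i.2).1, (hp i.1 i.2).2.1⟩
  obtain ⟨u, v, hv0, hvu, h2m, hcop, hcard, hgam1, hgam2, hlog, hlt⟩ := pair hq1 hinj hXY hm
    (by
      rw [Fintype.prod_prod_type, Fintype.prod_prod_type]
      exact hmod)
    (by
      rw [Fintype.sum_prod_type, Fintype.sum_prod_type]
      exact hsize)
  set Dd : Finset ι := univ.filter fun i => X i ≠ Y i with hDd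
  have hqpos : ∀ i, (0 : ℝ) < q i := fun i => by exact_mod_cast (hq1 i).1.pos
  have hq3 : ∀ i, 1 < Real.log (q i) := by
    intro i
    have h6 : 3 ≤ q i := by
      have := (hq1 i).1.two_le
      have := (hq1 i).2
      omega
    exact one_lt_log_three.trans_le (Real.log_le_log (by norm_num) (by exact_mod_cast h6))
  have hDne : Dd.Nonempty := by
    obtain ⟨i, hi⟩ := Function.ne_iff.1 hXY
    exact ⟨i, by rw [hDd, mem_filter]; exact ⟨mem_univ i, hi⟩⟩
  set ab : ι → ℝ := fun i => |(X i : ℝ) - (Y i : ℝ)| with hab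
  have hab0 : ∀ i, i ∉ Dd → ab i = 0 := by
    intro i hi
    rw [hDd, mem_filter, not_and, not_not] at hi
    simp only [hab]
    rw [hi (mem_univ i)]
    simp
  have hab1 : ∀ i ∈ Dd, 1 ≤ ab i ∧ ab i ≤ 2 := by
    intro i hi
    rw [hDd, mem_filter] at hi
    have h1 := hXle i
    have h2 := hYle i
    have h1' : (X i : ℝ) ≤ 2 := by exact_mod_cast h1
    have h2' : (Y i : ℝ) ≤ 2 := by exact_mod_cast h2
    have h3' : (0 : ℝ) ≤ X i := Nat.cast_nonneg _
    have h4' : (0 : ℝ) ≤ Y i := Nat.cast_nonneg _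
    simp only [hab]
    refine ⟨?_, by rw [abs_le]; constructor <;> linarith⟩
    rcases lt_or_gt_of_ne hi.2 with h | h
    · have : (X i : ℝ) + 1 ≤ Y i := by exact_mod_cast h
      rw [abs_sub_comm, abs_of_nonneg (by linarith)]
      linarith
    · have : (Y i : ℝ) + 1 ≤ X i := by exact_mod_cast h
      rw [abs_of_nonneg (by linarith)]
      linarith
  have hsumD : ∀ φ : ι → ℝ, ∑ i, ab i * φ i = ∑ i ∈ Dd, ab i * φ i := by
    intro φ
    symm
    apply sum_subset (subset_univ _)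
    intro i _ hi
    rw [hab0 i hi, zero_mul]
  set R : ℝ := ∑ i ∈ Dd, Real.log (q i) with hR
  set Sg : ℝ := ∑ i, ab i * Real.log (q i) with hSg
  have hSgD : Sg = ∑ i ∈ Dd, ab i * Real.log (q i) := hsumD _
  set T : ℝ := ∑ i ∈ Dd, ab i with hT
  have hs : (Dd.card : ℝ) ≤ R := by
    have := card_nsmul_le_sum Dd (fun i => Real.log (q i)) 1 fun i _ => (hq3 i).le
    rwa [nsmul_eq_mul, mul_one] at this
  have hR1 : 1 < R := by
    obtain ⟨i, hi⟩ := hDne
    exact (hq3 i).trans_le (single_le_sum (f := fun i => Real.log (q i))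
      (fun i _ => by linarith [hq3 i]) hi)
  have hRlog : Real.log ((∏ i ∈ Dd, q i : ℕ) : ℝ) = R := by
    rw [Nat.cast_prod, Real.log_prod fun i _ => (hqpos i).ne']
  have hu0 : 0 < u := by omega
  have hur : (0 : ℝ) < u := by exact_mod_cast hu0
  have hvr : (0 : ℝ) < v := by exact_mod_cast hv0
  have hvu' : Real.log (v : ℝ) ≤ Real.log u := by
    apply Real.log_le_log hvr
    exact_mod_cast hvu.le
  have hlog' : Real.log u + Real.log v = Sg := hlog
  have hrad0 : 0 < ∏ i ∈ Dd, q i := prod_pos fun i _ => (hq1 i).1.pos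
  have hradR : (0 : ℝ) < ((∏ i ∈ Dd, q i : ℕ) : ℝ) := by exact_mod_cast hrad0
  have hgA : (0 : ℝ) < gam ((u - v) * v * u) := by exact_mod_cast gam_pos _
  refine ⟨u, v, Dd.card, T, R, Sg, hv0, hvu, hcop, Nat.cast_nonneg _, ?_, by linarith, by linarith,
    ?_, ?_, ?_, ?_, ?_, hs, hR1, by exact_mod_cast hcard, ?_, ?_⟩
  · have h1 : (2 : ℝ) ^ m ≤ u := by exact_mod_cast h2m
    have := Real.log_le_log (by positivity) h1
    rwa [Real.log_pow] at this
  · -- the largest prime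
    rw [hSgD, hT, sum_mul]
    refine sum_le_sum fun i hi => mul_le_mul_of_nonneg_left ?_ (by linarith [(hab1 i hi).1])
    apply Real.log_le_log (hqpos i)
    refine (hp i.1 i.2).2.2.trans ?_
    apply mul_le_mul_of_nonneg_right _ hnp.le
    have h1 : ((i.2 : ℕ) : ℝ) + 1 ≤ Kt := by exact_mod_cast i.2.2
    rw [div_le_iff₀ hDp]
    have : (0 : ℝ) ≤ ((i.2 : ℕ) : ℝ) := Nat.cast_nonneg _
    nlinarith
  · rw [hSgD, hR, mul_sum]
    refine sum_le_sum fun i hi => mul_le_mul_of_nonneg_right (hab1 i hi).2 ?_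
    linarith [hq3 i]
  · rw [hSgD, hR]
    refine sum_le_sum fun i hi => ?_
    have := (hab1 i hi).1
    have := hq3 i
    nlinarith
  · -- the cost
    have hc : ∀ i ∈ Dd, Real.log (q i) ≤ Real.log n +
        ((F.f i.2 (x i.1 i.2) - F.f i.2 (y i.1 i.2)) ^ 2 - K1 / 2 * (ab i - 1)) := by
      intro i hi
      have h0 : x i.1 i.2 ≠ y i.1 i.2 := by
        intro h
        rw [hDd, mem_filter] at hi
        apply hi.2
        simp only [hX, hY, h]
      have h1 := F.hf i.2 _ _ h0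
      have h2 : (0 : ℝ) < (((i.2 : ℕ) : ℝ) + 1) / D := by positivity
      have h3 : Real.log (q i) ≤ Real.log (((i.2 : ℕ) + 1 : ℝ) / D * n) :=
        Real.log_le_log (hqpos i) (hp i.1 i.2).2.2
      rw [Real.log_mul h2.ne' hnp.ne'] at h3
      have h4 : ab i = |(((x i.1 i.2 : Fin 3) : ℕ) : ℝ) - (((y i.1 i.2 : Fin 3) : ℕ) : ℝ)| := rfl
      rw [h4]
      linarith
    have h1 : R ≤ ∑ i ∈ Dd, (Real.log n +
        ((F.f i.2 (x i.1 i.2) - F.f i.2 (y i.1 i.2)) ^ 2 - K1 / 2 * (ab i - 1))) := sum_le_sum hc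
    rw [sum_add_distrib, sum_const, nsmul_eq_mul, sum_sub_distrib, ← mul_sum, sum_sub_distrib,
      sum_const, nsmul_eq_mul, mul_one] at h1
    have h2 : ∑ i ∈ Dd, (F.f i.2 (x i.1 i.2) - F.f i.2 (y i.1 i.2)) ^ 2 ≤ I := by
      refine le_trans (sum_le_sum_of_subset_of_nonneg (subset_univ _) fun i _ _ => sq_nonneg _) ?_
      rw [Fintype.sum_prod_type]
      exact hI
    linarith
  · intro Q den hQ hden hlogQ
    have h1 := card_bound (I := Dd.image q) (by
      intro p hp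
      rw [mem_image] at hp
      obtain ⟨i, -, rfl⟩ := hp
      exact (hq1 i).1.one_lt.le) hQ hden hlogQ
    rw [card_image_of_injective _ hinj, sum_image fun a _ b _ h => hinj h] at h1
    exact h1
  · rw [← hRlog]
    exact Real.log_le_log hradR (by exact_mod_cast hgam1)
  · have h1 : (gam ((u - v) * v * u) : ℝ) * 2 ^ m ≤ 2 * u * ((∏ i ∈ Dd, q i : ℕ) : ℝ) := by
      exact_mod_cast hgam2
    have h2 := Real.log_le_log (by positivity) h1
    rw [Real.log_mul hgA.ne' (by positivity), Real.log_pow, Real.log_mul (by positivity) hradR.ne',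
      Real.log_mul (by norm_num) hur.ne', hRlog] at h2
    have := Real.log_two_lt_d9
    linarith

end Pool.Agent.H610.AbcH
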