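import Pool.Agent.H610.AbcH.Data

/-!
# Existence of the triples
-/

set_option autoImplicit false

open Finset Filter Topology

namespace Pool.Agent.H610.AbcH

open Pool.Agent.H390R2.LP
open Pool.Agent.X2.AbcH (gam H gam_pos one_lt_log_three small_log tendsto_X card_bound)

theorem data2 {D Kt : ℕ} {K1 : ℝ} (F : Fam D Kt K1) (hD : 1 ≤ D) (hKt : 1 ≤ Kt) {ε : ℝ}
    (hε : 0 < ε) (hpos : 0 < (F.C - F.En) / D) : ∀ᶠ n : ℕ in atTop,
    ∃ (u v : ℕ) (s T R Sg I μ : ℝ), 0 < v ∧ v < u ∧ Nat.Coprime (u - v) v ∧ 0 ≤ s ∧ 0 ≤ I ∧ 0 ≤ μ ∧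
      μ ≤ Real.log u ∧ μ ≤ F.C * (n / Real.log n) ∧
      I + ((F.C - F.En) / D - ε) * (n / Real.log n) ≤ μ ∧
      2 * Real.log u - 1 ≤ Sg ∧ Sg ≤ 2 * Real.log u ∧
      Sg ≤ T * Real.log (Kt * n) ∧ Sg ≤ 2 * R ∧ R ≤ Sg ∧
      R ≤ s * Real.log n + I - K1 / 2 * (T - s) ∧
      (∀ Q den : ℝ, 0 < Q → 0 < den → Real.log Q = den → s ≤ R / den + Q) ∧ s ≤ R ∧ 1 < R ∧
      s ≤ ((u - v) * v * u).primeFactors.card ∧
      R ≤ Real.log (gam ((u - v) * v * u)) ∧
      Real.log (gam ((u - v) * v * u)) ≤ R + Real.log u + 1 - μ := by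
  have hDR : (1 : ℝ) ≤ D := by exact_mod_cast hD
  have hDp : (0 : ℝ) < D := by linarith
  have hKtR : (1 : ℝ) ≤ Kt := by exact_mod_cast hKt
  set Xs : ℝ := (F.C - F.En) / D with hXs
  have hE := F.En_nonneg
  have hCE : F.C - F.En = D * Xs := by rw [hXs]; field_simp
  have hC0 : 0 < F.C := by
    have : 0 < (D : ℝ) * Xs := by positivity
    linarith
  -- the small parameter
  obtain ⟨η, hη0, hη1, hη2⟩ : ∃ η : ℝ, 0 < η ∧ η ≤ 1 / 2 ∧ η * (2 * Xs + 4) ≤ ε ∧ η * 4 ≤ Xs := by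
    refine ⟨min (1 / 2) (min (ε / (2 * Xs + 4)) (Xs / 4)), by positivity, min_le_left _ _, ?_, ?_⟩
    · have h1 : min (1 / 2) (min (ε / (2 * Xs + 4)) (Xs / 4)) ≤ ε / (2 * Xs + 4) :=
        (min_le_right _ _).trans (min_le_left _ _)
      rwa [le_div_iff₀ (by positivity)] at h1
    · have h1 : min (1 / 2) (min (ε / (2 * Xs + 4)) (Xs / 4)) ≤ Xs / 4 :=
        (min_le_right _ _).trans (min_le_right _ _)
      linarith
  obtain ⟨n0, hn0⟩ := comb F.s F.f hη0
  set c0 : ℝ := D * Xs with hc0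
  filter_upwards [sel D Kt hD hη0, tendsto_X.eventually_ge_atTop (2 * D * (n0 + 1)),
    small_log (A := 2 * Kt) (c := 2) (d := 3 + c0) (g := ε / 2) (by linarith) (by positivity)
      (by norm_num),
    small_log (A := 2 * Kt) (c := 2) (d := 3 + c0) (g := Xs / 4) (by linarith) (by positivity)
      (by norm_num),
    eventually_gt_atTop 3] with n hsel hX hl1 hl2 hn3
  have hn1 : 1 < n := by omega
  have hnR : (3 : ℝ) < n := by exact_mod_cast hn3
  have hnp : (0 : ℝ) < n := by linarith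
  have hln1 : 1 < Real.log n := one_lt_log_three.trans (Real.log_lt_log (by norm_num) hnR)
  set X : ℝ := (n : ℝ) / Real.log n with hXd
  have hX0 : 0 < X := div_pos hnp (by linarith)
  set n' : ℕ := ⌊(1 - η) * (X / D)⌋₊ with hn'
  have hfl0 : 0 ≤ (1 - η) * (X / D) := mul_nonneg (by linarith) (by positivity)
  have hn'le : (n' : ℝ) ≤ (1 - η) * (X / D) := Nat.floor_le hfl0
  have hn'gt : (1 - η) * (X / D) < n' + 1 := Nat.lt_floor_add_one _
  have hn'n0 : n0 ≤ n' := by
    have h1 : ((n0 : ℝ) + 1) ≤ (1 - η) * (X / D) := by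
      have h2 : (n0 : ℝ) + 1 ≤ 1 / 2 * (X / D) := by
        rw [div_mul_div_comm, le_div_iff₀ (by positivity)]
        linarith
      have h3 : 1 / 2 * (X / D) ≤ (1 - η) * (X / D) := by
        apply mul_le_mul_of_nonneg_right _ (by positivity)
        linarith
      linarith
    have h4 : (n0 : ℝ) < n' + 1 := by linarith
    have h5 : n0 < n' + 1 := by exact_mod_cast h4
    omega
  obtain ⟨pr, hp, hinj⟩ := hsel n' hn'le
  -- the number of size classes
  set B : ℕ := (2 * Kt * n + 1) ^ 2 with hB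
  have hBr : (B : ℝ) = (2 * Kt * n + 1) ^ 2 := by rw [hB]; push_cast; ring
  have hB0 : (0 : ℝ) < B := by rw [hBr]; positivity
  have hlogB : Real.log B = 2 * Real.log (2 * Kt * n + 1) := by
    rw [hBr, Real.log_pow]; norm_num
  have hXn : X ≤ n := by
    rw [hXd, div_le_iff₀ (by linarith)]
    nlinarith
  have hn'n : (n' : ℝ) ≤ n := by
    refine hn'le.trans ?_
    have h1 : X / D ≤ X := div_le_self hX0.le hDR
    have h2 : (1 - η) * (X / D) ≤ 1 * (X / D) := by
      apply mul_le_mul_of_nonneg_right _ (by positivity)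
      linarith
    linarith
  have hlogp : ∀ j k, Real.log (pr j k) ≤ Kt * n := by
    intro j k
    have h1 := (hp j k).1.pos
    have h1' : (0 : ℝ) < pr j k := by exact_mod_cast h1
    have h2 := Real.log_le_sub_one_of_pos h1'
    have h3 := (hp j k).2.2
    have h4 : ((k : ℕ) : ℝ) + 1 ≤ Kt := by exact_mod_cast k.2
    have h5 : (((k : ℕ) : ℝ) + 1) / D ≤ Kt := by
      rw [div_le_iff₀ hDp]
      have : (0 : ℝ) ≤ ((k : ℕ) : ℝ) := Nat.cast_nonneg _
      nlinarith
    have h6 : (((k : ℕ) : ℝ) + 1) / D * n ≤ Kt * n := mul_le_mul_of_nonneg_right h5 hnp.le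
    linarith
  have hsumB : ∑ j : Fin n', ∑ k : Fin Kt, 2 * Real.log (pr j k) < B := by
    have h1 : ∑ j : Fin n', ∑ k : Fin Kt, 2 * Real.log (pr j k) ≤
        ∑ _j : Fin n', ∑ _k : Fin Kt, 2 * (Kt * n : ℝ) :=
      sum_le_sum fun j _ => sum_le_sum fun k _ => by linarith [hlogp j k]
    simp only [sum_const, card_univ, Fintype.card_fin, nsmul_eq_mul] at h1
    refine lt_of_le_of_lt h1 ?_
    rw [hBr]
    have h2 : (n' : ℝ) * (Kt * (2 * (Kt * n))) ≤ n * (Kt * (2 * (Kt * n))) := by gcongr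
    have h3 : 0 < (Kt : ℝ) * n := by positivity
    nlinarith [mul_pos h3 h3]
  -- the power of two
  set L : ℝ := n' * (F.C - η) - Real.log B with hL
  have hmain : (Xs - ε) * X + (n' * (F.En + η) + 1) + Real.log 2 ≤ L ∧ 2 * Real.log 2 ≤ L := by
    have h2 := Real.log_two_lt_d9
    have e1 : L = n' * (c0 - 2 * η) + n' * (F.En + η) - 2 * Real.log (2 * Kt * n + 1) := by
      rw [hL, hlogB, ← hCE]; ring
    have hc02 : 0 ≤ c0 - 2 * η := by
      rw [hc0]
      have : 1 * Xs ≤ D * Xs := mul_le_mul_of_nonneg_right hDR hpos.le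
      linarith [hη2.2]
    have h3 : ((1 - η) * (X / D) - 1) * (c0 - 2 * η) ≤ n' * (c0 - 2 * η) :=
      mul_le_mul_of_nonneg_right (by linarith) hc02
    have e2 : ((1 - η) * (X / D) - 1) * (c0 - 2 * η) =
        (1 - η) * X * (Xs - 2 * η / D) - (c0 - 2 * η) := by
      rw [hc0]; field_simp
    have h4 : 2 * η / D ≤ 2 * η := div_le_self (by positivity) hDR
    have h5 : (1 - η) * X * (Xs - 2 * η) ≤ (1 - η) * X * (Xs - 2 * η / D) := by
      apply mul_le_mul_of_nonneg_left _ (mul_nonneg (by linarith) hX0.le)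
      linarith
    have h6 : (Xs - ε / 2) * X ≤ (1 - η) * X * (Xs - 2 * η) := by
      have h7 : Xs - ε / 2 ≤ (1 - η) * (Xs - 2 * η) := by nlinarith [hη2.1, mul_pos hη0 hη0]
      calc (Xs - ε / 2) * X ≤ ((1 - η) * (Xs - 2 * η)) * X := mul_le_mul_of_nonneg_right h7 hX0.le
        _ = _ := by ring
    have h6' : Xs / 4 * X ≤ (1 - η) * X * (Xs - 2 * η) := by
      have h7 : Xs / 4 ≤ (1 - η) * (Xs - 2 * η) := by nlinarith [hη2.2]
      calc Xs / 4 * X ≤ ((1 - η) * (Xs - 2 * η)) * X := mul_le_mul_of_nonneg_right h7 hX0.le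
        _ = _ := by ring
    have h8 : 0 ≤ (n' : ℝ) * (F.En + η) := by positivity
    constructor
    · rw [e1]
      have : (Xs - ε) * X = (Xs - ε / 2) * X - ε / 2 * X := by ring
      linarith
    · rw [e1]
      linarith
  set m : ℕ := ⌊L / Real.log 2⌋₊ with hm
  have hl2 : 0 < Real.log 2 := Real.log_pos (by norm_num)
  have hL2 : 2 ≤ L / Real.log 2 := by
    rw [le_div_iff₀ hl2]; exact hmain.2
  have hm1 : (m : ℝ) * Real.log 2 ≤ L := by
    rw [← le_div_iff₀ hl2]
    exact Nat.floor_le (by linarith)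
  have hm2 : L < (m : ℝ) * Real.log 2 + Real.log 2 := by
    have := Nat.lt_floor_add_one (L / Real.log 2)
    rw [div_lt_iff₀ hl2] at this
    rw [← hm] at this
    linarith
  have hm3 : 1 ≤ m := by
    rw [hm, Nat.one_le_floor_iff]
    linarith
  obtain ⟨x, y, hxy, hmod, hsize, hcost⟩ := hn0 n' hn'n0 pr B m
    (fun j k => (hp j k).1.one_lt.le) hsumB (by
      rw [← Real.log_le_iff_le_exp (by positivity), Real.log_mul (by positivity) hB0.ne',
        Real.log_pow]
      show (m : ℝ) * Real.log 2 + Real.log B ≤ n' * (F.C - η)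
      linarith)
  obtain ⟨u, v, s, T, R, Sg, h1, h2, h3, h4, h5, h6, h7, h8, h9, h10, h11, h12, h13, h14, h15, h16,
    h17⟩ := data1 F hn1 hD hp hinj hxy hm3 hmod hsize hcost
  refine ⟨u, v, s, T, R, Sg, n' * (F.En + η) + 1, m * Real.log 2, h1, h2, h3, h4, by positivity,
    by positivity, h5, ?_, by linarith [hmain.1], h6, h7, h8, h9, h10, h11, h12, h13, h14, h15, h16,
    h17⟩
  · -- `μ ≤ C X`
    have hlB : 0 ≤ Real.log B := by
      rw [hlogB]
      have := Real.log_nonneg (show (1 : ℝ) ≤ 2 * Kt * n + 1 by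
        have : (0 : ℝ) ≤ 2 * Kt * n := by positivity
        linarith)
      linarith
    have h18 : (n' : ℝ) * (F.C - η) ≤ n' * F.C :=
      mul_le_mul_of_nonneg_left (by linarith) (Nat.cast_nonneg _)
    have h19 : (n' : ℝ) ≤ X := by
      refine hn'le.trans ?_
      have h1 : X / D ≤ X := div_le_self hX0.le hDR
      have h2 : (1 - η) * (X / D) ≤ 1 * (X / D) := by
        apply mul_le_mul_of_nonneg_right _ (by positivity)
        linarith
      linarith
    have h20 : (n' : ℝ) * F.C ≤ X * F.C := mul_le_mul_of_nonneg_right h19 hC0.le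
    linarith

end Pool.Agent.H610.AbcH
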