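import Pool.Agent.H610.AbcH.Data2

/-!
# Triples with small `H`
-/

set_option autoImplicit false

open Finset Filter Topology

namespace Pool.Agent.H610.AbcH

open Pool.Agent.X2.AbcH (gam H gam_pos one_lt_log_three small_log small_pow tendsto_X card_bound
  sd_bound ly_bound kn_bound loglog logH_le)

theorem ly_bound2 {N μ y : ℝ} (hN : 0 < N) (hμ0 : 0 ≤ μ) (hy : 3 * N - μ ≤ y) (hy2 : 2 * N ≤ y) :
    Real.log (3 * N) - μ / (2 * N) ≤ Real.log y := by
  rcases le_total μ N with h | h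
  · exact ly_bound hN hμ0 h hy
  · have h1 : Real.log (2 * N) ≤ Real.log y := Real.log_le_log (by positivity) hy2
    have h2 : Real.log (3 * N) = Real.log (3 / 2) + Real.log (2 * N) := by
      rw [← Real.log_mul (by norm_num) (by positivity)]
      congr 1; ring
    have h3 : Real.log (3 / 2) ≤ 1 / 2 := by
      have := Real.log_le_sub_one_of_pos (show (0 : ℝ) < 3 / 2 by norm_num)
      linarith
    have h4 : 1 / 2 ≤ μ / (2 * N) := by
      rw [div_le_div_iff₀ (by norm_num) (by positivity)]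
      linarith
    linarith

theorem smu_bound2 {s μ N ln X g δ Q C : ℝ} (hln : 0 < ln) (hX0 : 0 < X) (hN : 0 < N)
    (hδ : δ < 1) (hs : s ≤ 2 * N / ((1 - δ) * ln) + Q) (hQ : 0 ≤ Q) (hg : 0 < g)
    (hμ0 : 0 ≤ μ) (hμN : μ ≤ 3 * N) (hμ : μ ≤ 2 * C * X) (hln2 : 64 * C / (g * (1 - δ)) ≤ ln)
    (hQX : Q ≤ g / 16 * X) : s * μ / (2 * N) ≤ g / 8 * X := by
  have hδ' : 0 < 1 - δ := by linarith
  have hden : 0 < (1 - δ) * ln := by positivity
  have h1 : s * μ / (2 * N) ≤ (2 * N / ((1 - δ) * ln) + Q) * μ / (2 * N) := by gcongr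
  have h2 : (2 * N / ((1 - δ) * ln) + Q) * μ / (2 * N) = μ / ((1 - δ) * ln) + Q / 2 * (μ / N) := by
    field_simp
  have h3 : μ / N ≤ 3 := by
    rw [div_le_iff₀ hN]; exact hμN
  have h5 : μ / ((1 - δ) * ln) ≤ g / 32 * X := by
    rw [div_le_iff₀ hden]
    rw [div_le_iff₀ (by positivity)] at hln2
    have h7 : 2 * C ≤ g / 32 * ((1 - δ) * ln) := by linarith
    calc μ ≤ 2 * C * X := hμ
      _ ≤ g / 32 * ((1 - δ) * ln) * X := by gcongr
      _ = _ := by ring
  have h6 : Q / 2 * (μ / N) ≤ Q / 2 * 3 := mul_le_mul_of_nonneg_left h3 (by positivity)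
  linarith

theorem finish2 {lH N μ s lny K1 sd ln smu I LW KN K g X θ R T : ℝ}
    (hH : lH ≤ (R + N + 1 - μ) - s * lny) (h1 : s * (K1 / 2) - sd + s * ln - smu ≤ s * lny)
    (h2 : sd ≤ (θ + g / 4) * X) (h3 : smu ≤ g / 8 * X) (h4 : I + LW ≤ μ)
    (hR : R ≤ s * ln + I - K1 / 2 * (T - s)) (h7 : KN ≤ T * (K1 / 2) + K / 2)
    (h8 : K / 2 + 6 ≤ g / 16 * X) (h9 : (θ + 7 * g / 8) * X ≤ LW)
    (h11 : 0 < g * X) : lH < N - KN := by
  have e1 : (θ + g / 4) * X = θ * X + g * X / 4 := by ring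
  have e2 : (θ + 7 * g / 8) * X = θ * X + 7 * (g * X) / 8 := by ring
  have e3 : g / 8 * X = g * X / 8 := by ring
  have e4 : g / 16 * X = g * X / 16 := by ring
  have e5 : K1 / 2 * (T - s) = T * (K1 / 2) - s * (K1 / 2) := by ring
  rw [e1] at h2
  rw [e2] at h9
  rw [e3] at h3
  rw [e4] at h8
  rw [e5] at hR
  generalize θ * X = tX at *
  generalize g * X = gX at *
  generalize s * (K1 / 2) = a1 at *
  generalize s * ln = a2 at *
  generalize s * lny = a3 at *
  generalize T * (K1 / 2) = a4 at *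
  linarith

theorem main {D Kt : ℕ} {K1 : ℝ} (F : Fam D Kt K1) (hD : 1 ≤ D) (hKt : 1 ≤ Kt) (h3K : 3 ≤ K1)
    (hXs : 2 / 3 * Real.exp (K1 / 2 - 1) < (F.C - F.En) / D) {K : ℝ} (hK0 : 0 < K) (hK1 : K < K1) :
    ∀ᶠ n : ℕ in atTop,
    ∃ a b : ℕ, 0 < a ∧ 0 < b ∧ Nat.Coprime a b ∧ (n : ℝ) / Real.log n ≤ Real.log ((a + b : ℕ) : ℝ) ∧
      Real.log (H (a * b * (a + b))) < Real.log ((a + b : ℕ) : ℝ) -
        K * Real.log ((a + b : ℕ) : ℝ) / Real.log (Real.log ((a + b : ℕ) : ℝ)) := by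
  -- the constants
  set Xs : ℝ := (F.C - F.En) / D with hXsd
  set θ : ℝ := 2 / 3 * Real.exp (K1 / 2 - 1) with hθ
  have hθ0 : 0 < θ := by positivity
  have hθ1 : 1 ≤ θ := by
    have h1 := Real.add_one_le_exp (K1 / 2 - 1)
    rw [hθ]; linarith
  set g : ℝ := Xs - θ with hg
  have hg0 : 0 < g := by linarith
  set δ : ℝ := g / (8 * θ + g) with hδ
  have hδ0 : 0 < δ := by positivity
  have hδ1 : δ < 1 := by
    rw [hδ, div_lt_one (by positivity)]
    linarith
  have hδθ : θ / (1 - δ) = θ + g / 8 := by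
    have h1 : 1 - δ = 8 * θ / (8 * θ + g) := by
      rw [hδ]; field_simp; ring
    rw [h1]
    field_simp
  have hKtR : (1 : ℝ) ≤ Kt := by exact_mod_cast hKt
  have hDR : (1 : ℝ) ≤ D := by exact_mod_cast hD
  have hC0 : 0 < F.C := by
    have h1 : 0 < F.C - F.En := by
      have h2 : 0 < (F.C - F.En) / D := by linarith
      have h3 : F.C - F.En = D * ((F.C - F.En) / D) := by field_simp
      rw [h3]; positivity
    linarith [F.En_nonneg]
  filter_upwards [data2 F hD hKt (ε := g / 8) (by positivity) (by linarith), loglog hK0 hK1 hKtR,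
    small_pow (δ := δ) (c := K1 / 2) (g := g / 8) hδ0 (by linarith) (by positivity),
    small_pow (δ := δ) (c := 0) (g := g / 16) hδ0 le_rfl (by positivity),
    tendsto_X.eventually_ge_atTop 3,
    tendsto_X.eventually_ge_atTop ((K / 2 + 6) / (g / 16)), (Real.tendsto_log_atTop.comp
      (tendsto_natCast_atTop_atTop (R := ℝ))).eventually_ge_atTop (64 * F.C / (g * (1 - δ))),
    eventually_gt_atTop 3] with n hdata hll hq1 hq2 hX3 hX4 hlogn hn3
  simp only [Function.comp_apply] at hlogn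
  have hn0 : (3 : ℝ) < n := by exact_mod_cast hn3
  have hl1 : 1 < Real.log n := one_lt_log_three.trans (Real.log_lt_log (by norm_num) hn0)
  have hnp : (0 : ℝ) < n := by linarith
  obtain ⟨u, v, s, T, R, Sg, I, μ, hv0, hlt, hcop, hs0, hI0, hμ0, hμN, hμC, hIμ, hSg1, hSg2, hSgT,
    hSgR, hRSg, hRs, hs1, hsR, hR1, hcard, hgA1, hgA2⟩ := hdata
  set ln : ℝ := Real.log n with hln
  set X : ℝ := (n : ℝ) / ln with hX
  have hX0 : 0 < X := by linarith
  have hgX : 0 < g * X := by positivity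
  have hden : 0 < (1 - δ) * ln := mul_pos (by linarith) (by linarith)
  set Q : ℝ := (n : ℝ) ^ (1 - δ) with hQ
  have hQ0 : 0 < Q := by positivity
  have hlogQ : Real.log Q = (1 - δ) * ln := Real.log_rpow hnp _
  refine ⟨u - v, v, by omega, hv0, hcop, ?_⟩
  have hadd : u - v + v = u := by omega
  rw [hadd]
  set N : ℝ := Real.log (u : ℝ) with hN
  have hNX : X ≤ N := by
    have h1 : 1 ≤ Xs - g / 8 := by rw [hg]; linarith
    have h2 : 1 * X ≤ (Xs - g / 8) * X := mul_le_mul_of_nonneg_right h1 hX0.le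
    linarith
  refine ⟨hNX, ?_⟩
  have hN3 : 3 ≤ N := by linarith
  have hN0 : 0 < N := by linarith
  have hlN1 : 1 < Real.log N := one_lt_log_three.trans_le (Real.log_le_log (by norm_num) hN3)
  -- half of the logarithm of the radical of `u v`
  set N' : ℝ := R / 2 with hN'
  have hN'0 : 0 < N' := by linarith
  have hs2 : s ≤ 2 * N' / ((1 - δ) * ln) + Q := by
    have h1 := hs1 Q _ hQ0 hden hlogQ
    have e : 2 * N' = R := by rw [hN']; ring
    rw [e]; exact h1
  have hd1 : K1 / 2 - Real.log (3 * (N' / n)) ≤ K1 / 2 + ln := by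
    have h1 : -ln ≤ Real.log (3 * (N' / n)) := by
      rw [hln, ← Real.log_inv]
      apply Real.log_le_log (by positivity)
      rw [inv_eq_one_div, mul_div_assoc', div_le_div_iff_of_pos_right hnp]
      linarith
    linarith
  have hsd := sd_bound hnp (by linarith) hX hN'0 hδ1 hs0 hs2 hQ0.le hθ0 hg0 hθ rfl hδθ hd1 hq1
  have hQX : Q ≤ g / 16 * X := by
    rw [zero_add] at hq2
    have h1 : Q * 1 ≤ Q * ln := mul_le_mul_of_nonneg_left hl1.le hQ0.le
    linarith
  have hμ3 : μ ≤ 3 * N' := by linarith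
  have hsμ := smu_bound2 (C := F.C) (by linarith) hX0 hN'0 hδ1 hs2 hQ0.le hg0 hμ0 hμ3
    (by nlinarith [mul_pos hC0 hX0]) hlogn hQX
  have hT0 : 0 ≤ T := by
    have hKn : 1 ≤ (Kt : ℝ) * n := by nlinarith
    have h1 : 0 ≤ Real.log (Kt * n) := Real.log_nonneg hKn
    by_contra hcon
    push Not at hcon
    have h2 : T * Real.log (Kt * n) ≤ 0 := mul_nonpos_of_nonpos_of_nonneg hcon.le h1
    linarith
  have hKN := kn_bound hK0 hK1 hT0 hlN1 hll (Real.log_le_log hX0 hNX) hSg1 hSgT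
  have hH := logH_le (n := (u - v) * v * u) (s := s) (y := R + N + 1 - μ) hs0 hcard hgA2
    (hsR.trans hgA1) (by linarith)
  have hly := ly_bound2 (y := R + N + 1 - μ) hN'0 hμ0 (by linarith) (by linarith)
  have h3N : Real.log (3 * N') = Real.log (3 * (N' / n)) + ln := by
    rw [hln, ← Real.log_mul (by positivity) hnp.ne']
    congr 1
    field_simp
  have hfinal : s * (Real.log (3 * N') - μ / (2 * N')) ≤ s * Real.log (R + N + 1 - μ) :=
    mul_le_mul_of_nonneg_left hly hs0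
  have e1 : s * (Real.log (3 * N') - μ / (2 * N')) = s * (K1 / 2) -
      s * (K1 / 2 - Real.log (3 * (N' / n))) + s * ln - s * μ / (2 * N') := by
    rw [h3N]; ring
  rw [e1] at hfinal
  have h8 : K / 2 + 6 ≤ g / 16 * X := by
    rw [div_le_iff₀ (by positivity)] at hX4
    linarith
  refine finish2 hH hfinal hsd hsμ hIμ hRs hKN h8 (le_of_eq ?_) hgX
  rw [hg]; ring

end Pool.Agent.H610.AbcH
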