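import Pool.Agent.H610.AbcH.Reach

/-!
# The explicit family of one-site states (generated numerical verification)
-/

set_option autoImplicit false

open Finset Filter Topology

namespace Pool.Agent.H610.AbcH

theorem lg0 : 4394449 / 4000000 < Real.log (3) ∧ Real.log (3) < 6866327 / 6250000 := by
  have h := log_bd (r := 3) (y := -(1 / 7)) 2 6 (by norm_num) (by norm_num [abs_lt])
  have h2 := Real.log_two_gt_d9
  have h3 := Real.log_two_lt_d9
  simp only [Finset.sum_range_succ, Finset.sum_range_zero] at h
  rw [abs_le] at h
  norm_num at h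
  constructor <;> linarith [h.1, h.2]

theorem lg1 : -(210291493 / 100000000) < Real.log (1221 / 10000) ∧ Real.log (1221 / 10000) < -(105145743 / 50000000) := by
  have h := log_bd (r := 1221 / 10000) (y := -(29 / 2471)) (-3) 6 (by norm_num) (by norm_num [abs_lt])
  have h2 := Real.log_two_gt_d9
  have h3 := Real.log_two_lt_d9
  simp only [Finset.sum_range_succ, Finset.sum_range_zero] at h
  rw [abs_le] at h
  norm_num at h
  constructor <;> linarith [h.1, h.2]

theorem lg2 : -(117765553 / 100000000) < Real.log (77 / 250) ∧ Real.log (77 / 250) < -(58882773 / 50000000) := by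
  have h := log_bd (r := 77 / 250) (y := 29 / 279) (-2) 6 (by norm_num) (by norm_num [abs_lt])
  have h2 := Real.log_two_gt_d9
  have h3 := Real.log_two_lt_d9
  simp only [Finset.sum_range_succ, Finset.sum_range_zero] at h
  rw [abs_le] at h
  norm_num at h
  constructor <;> linarith [h.1, h.2]

theorem lg3 : -(23927819 / 25000000) < Real.log (48 / 125) ∧ Real.log (48 / 125) < -(95711269 / 100000000) := by
  have h := log_bd (r := 48 / 125) (y := -(29 / 221)) (-1) 6 (by norm_num) (by norm_num [abs_lt])
  have h2 := Real.log_two_gt_d9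
  have h3 := Real.log_two_lt_d9
  simp only [Finset.sum_range_succ, Finset.sum_range_zero] at h
  rw [abs_le] at h
  norm_num at h
  constructor <;> linarith [h.1, h.2]

theorem lg4 : -(210209627 / 100000000) < Real.log (611 / 5000) ∧ Real.log (611 / 5000) < -(10510481 / 5000000) := by
  have h := log_bd (r := 611 / 5000) (y := -(7 / 618)) (-3) 6 (by norm_num) (by norm_num [abs_lt])
  have h2 := Real.log_two_gt_d9
  have h3 := Real.log_two_lt_d9
  simp only [Finset.sum_range_succ, Finset.sum_range_zero] at h
  rw [abs_le] at h
  norm_num at h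
  constructor <;> linarith [h.1, h.2]

theorem lg5 : -(26186667 / 20000000) < Real.log (27 / 100) ∧ Real.log (27 / 100) < -(8183333 / 6250000) := by
  have h := log_bd (r := 27 / 100) (y := 1 / 26) (-2) 6 (by norm_num) (by norm_num [abs_lt])
  have h2 := Real.log_two_gt_d9
  have h3 := Real.log_two_lt_d9
  simp only [Finset.sum_range_succ, Finset.sum_range_zero] at h
  rw [abs_le] at h
  norm_num at h
  constructor <;> linarith [h.1, h.2]

theorem lg6 : -(66025333 / 50000000) < Real.log (267 / 1000) ∧ Real.log (267 / 1000) < -(132050659 / 100000000) := by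
  have h := log_bd (r := 267 / 1000) (y := 17 / 517) (-2) 6 (by norm_num) (by norm_num [abs_lt])
  have h2 := Real.log_two_gt_d9
  have h3 := Real.log_two_lt_d9
  simp only [Finset.sum_range_succ, Finset.sum_range_zero] at h
  rw [abs_le] at h
  norm_num at h
  constructor <;> linarith [h.1, h.2]

theorem lg7 : -(9544621 / 12500000) < Real.log (233 / 500) ∧ Real.log (233 / 500) < -(76356961 / 100000000) := by
  have h := log_bd (r := 233 / 500) (y := -(17 / 483)) (-1) 6 (by norm_num) (by norm_num [abs_lt])
  have h2 := Real.log_two_gt_d9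
  have h3 := Real.log_two_lt_d9
  simp only [Finset.sum_range_succ, Finset.sum_range_zero] at h
  rw [abs_le] at h
  norm_num at h
  constructor <;> linarith [h.1, h.2]

theorem lg8 : -(4458437 / 6250000) < Real.log (49 / 100) ∧ Real.log (49 / 100) < -(14266997 / 20000000) := by
  have h := log_bd (r := 49 / 100) (y := -(1 / 99)) (-1) 6 (by norm_num) (by norm_num [abs_lt])
  have h2 := Real.log_two_gt_d9
  have h3 := Real.log_two_lt_d9
  simp only [Finset.sum_range_succ, Finset.sum_range_zero] at h
  rw [abs_le] at h
  norm_num at h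
  constructor <;> linarith [h.1, h.2]

theorem lg9 : -(34657361 / 50000000) < Real.log (1 / 2) ∧ Real.log (1 / 2) < -(13862943 / 20000000) := by
  have h := log_bd (r := 1 / 2) (y := 0) (-1) 6 (by norm_num) (by norm_num [abs_lt])
  have h2 := Real.log_two_gt_d9
  have h3 := Real.log_two_lt_d9
  simp only [Finset.sum_range_succ, Finset.sum_range_zero] at h
  rw [abs_le] at h
  norm_num at h
  constructor <;> linarith [h.1, h.2]

theorem lg10 : -(788858457 / 100000000) < Real.log (3 / 8000) ∧ Real.log (3 / 8000) < -(15777169 / 2000000) := by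
  have h := log_bd (r := 3 / 8000) (y := -(29 / 221)) (-11) 6 (by norm_num) (by norm_num [abs_lt])
  have h2 := Real.log_two_gt_d9
  have h3 := Real.log_two_lt_d9
  simp only [Finset.sum_range_succ, Finset.sum_range_zero] at h
  rw [abs_le] at h
  norm_num at h
  constructor <;> linarith [h.1, h.2]

theorem lg11 : -(37511 / 100000000) < Real.log (7997 / 8000) ∧ Real.log (7997 / 8000) < -(293 / 781250) := by
  have h := log_bd (r := 7997 / 8000) (y := -(3 / 15997)) 0 6 (by norm_num) (by norm_num [abs_lt])
  have h2 := Real.log_two_gt_d9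
  have h3 := Real.log_two_lt_d9
  simp only [Finset.sum_range_succ, Finset.sum_range_zero] at h
  rw [abs_le] at h
  norm_num at h
  constructor <;> linarith [h.1, h.2]

theorem lg12 : 2238463 / 4000000 < Real.log (7 / 4) ∧ Real.log (7 / 4) < 27980791 / 50000000 := by
  have h := log_bd (r := 7 / 4) (y := -(1 / 15)) 1 6 (by norm_num) (by norm_num [abs_lt])
  have h2 := Real.log_two_gt_d9
  have h3 := Real.log_two_lt_d9
  simp only [Finset.sum_range_succ, Finset.sum_range_zero] at h
  rw [abs_le] at h
  norm_num at h
  constructor <;> linarith [h.1, h.2]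

theorem lg13 : -(527655591 / 100000000) < Real.log (511 / 100000) ∧ Real.log (511 / 100000) < -(16489237 / 3125000) := by
  have h := log_bd (r := 511 / 100000) (y := 963 / 7213) (-8) 6 (by norm_num) (by norm_num [abs_lt])
  have h2 := Real.log_two_gt_d9
  have h3 := Real.log_two_lt_d9
  simp only [Finset.sum_range_succ, Finset.sum_range_zero] at h
  rw [abs_le] at h
  norm_num at h
  constructor <;> linarith [h.1, h.2]

theorem lg14 : -(256157 / 50000000) < Real.log (99489 / 100000) ∧ Real.log (99489 / 100000) < -(512307 / 100000000) := by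
  have h := log_bd (r := 99489 / 100000) (y := -(511 / 199489)) 0 6 (by norm_num) (by norm_num [abs_lt])
  have h2 := Real.log_two_gt_d9
  have h3 := Real.log_two_lt_d9
  simp only [Finset.sum_range_succ, Finset.sum_range_zero] at h
  rw [abs_le] at h
  norm_num at h
  constructor <;> linarith [h.1, h.2]

theorem lg15 : 23402333 / 25000000 < Real.log (51 / 20) ∧ Real.log (51 / 20) < 93609339 / 100000000 := by
  have h := log_bd (r := 51 / 20) (y := 11 / 91) 1 6 (by norm_num) (by norm_num [abs_lt])
  have h2 := Real.log_two_gt_d9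
  have h3 := Real.log_two_lt_d9
  simp only [Finset.sum_range_succ, Finset.sum_range_zero] at h
  rw [abs_le] at h
  norm_num at h
  constructor <;> linarith [h.1, h.2]

theorem lg16 : -(404555443 / 100000000) < Real.log (7 / 400) ∧ Real.log (7 / 400) < -(101138859 / 25000000) := by
  have h := log_bd (r := 7 / 400) (y := 3 / 53) (-6) 6 (by norm_num) (by norm_num [abs_lt])
  have h2 := Real.log_two_gt_d9
  have h3 := Real.log_two_lt_d9
  simp only [Finset.sum_range_succ, Finset.sum_range_zero] at h
  rw [abs_le] at h
  norm_num at h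
  constructor <;> linarith [h.1, h.2]

theorem lg17 : -(1765497 / 100000000) < Real.log (393 / 400) ∧ Real.log (393 / 400) < -(176549 / 10000000) := by
  have h := log_bd (r := 393 / 400) (y := -(7 / 793)) 0 6 (by norm_num) (by norm_num [abs_lt])
  have h2 := Real.log_two_gt_d9
  have h3 := Real.log_two_lt_d9
  simp only [Finset.sum_range_succ, Finset.sum_range_zero] at h
  rw [abs_le] at h
  norm_num at h
  constructor <;> linarith [h.1, h.2]

theorem lg18 : 6191871 / 5000000 < Real.log (69 / 20) ∧ Real.log (69 / 20) < 123837427 / 100000000 := by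
  have h := log_bd (r := 69 / 20) (y := -(11 / 149)) 2 6 (by norm_num) (by norm_num [abs_lt])
  have h2 := Real.log_two_gt_d9
  have h3 := Real.log_two_lt_d9
  simp only [Finset.sum_range_succ, Finset.sum_range_zero] at h
  rw [abs_le] at h
  norm_num at h
  constructor <;> linarith [h.1, h.2]

theorem lg19 : -(318447443 / 100000000) < Real.log (207 / 5000) ∧ Real.log (207 / 5000) < -(79611859 / 25000000) := by
  have h := log_bd (r := 207 / 5000) (y := 203 / 1453) (-5) 6 (by norm_num) (by norm_num [abs_lt])
  have h2 := Real.log_two_gt_d9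
  have h3 := Real.log_two_lt_d9
  simp only [Finset.sum_range_succ, Finset.sum_range_zero] at h
  rw [abs_le] at h
  norm_num at h
  constructor <;> linarith [h.1, h.2]

theorem lg20 : -(4228143 / 100000000) < Real.log (4793 / 5000) ∧ Real.log (4793 / 5000) < -(528517 / 12500000) := by
  have h := log_bd (r := 4793 / 5000) (y := -(207 / 9793)) 0 6 (by norm_num) (by norm_num [abs_lt])
  have h2 := Real.log_two_gt_d9
  have h3 := Real.log_two_lt_d9
  simp only [Finset.sum_range_succ, Finset.sum_range_zero] at h
  rw [abs_le] at h
  norm_num at h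
  constructor <;> linarith [h.1, h.2]

theorem lg21 : 148160451 / 100000000 < Real.log (22 / 5) ∧ Real.log (22 / 5) < 74080229 / 50000000 := by
  have h := log_bd (r := 22 / 5) (y := 1 / 21) 2 6 (by norm_num) (by norm_num [abs_lt])
  have h2 := Real.log_two_gt_d9
  have h3 := Real.log_two_lt_d9
  simp only [Finset.sum_range_succ, Finset.sum_range_zero] at h
  rw [abs_le] at h
  norm_num at h
  constructor <;> linarith [h.1, h.2]

theorem lg22 : -(25889569 / 12500000) < Real.log (315097 / 2500000) ∧ Real.log (315097 / 2500000) < -(41423309 / 20000000) := by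
  have h := log_bd (r := 315097 / 2500000) (y := 2597 / 627597) (-3) 6 (by norm_num) (by norm_num [abs_lt])
  have h2 := Real.log_two_gt_d9
  have h3 := Real.log_two_lt_d9
  simp only [Finset.sum_range_succ, Finset.sum_range_zero] at h
  rw [abs_le] at h
  norm_num at h
  constructor <;> linarith [h.1, h.2]

theorem lg23 : -(13471933 / 100000000) < Real.log (2184903 / 2500000) ∧ Real.log (2184903 / 2500000) < -(6735963 / 50000000) := by
  have h := log_bd (r := 2184903 / 2500000) (y := -(315097 / 4684903)) 0 6 (by norm_num) (by norm_num [abs_lt])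
  have h2 := Real.log_two_gt_d9
  have h3 := Real.log_two_lt_d9
  simp only [Finset.sum_range_succ, Finset.sum_range_zero] at h
  rw [abs_le] at h
  norm_num at h
  constructor <;> linarith [h.1, h.2]

theorem lg24 : -(221982789 / 50000000) < Real.log (59 / 5000) ∧ Real.log (59 / 5000) < -(443965571 / 100000000) := by
  have h := log_bd (r := 59 / 5000) (y := -(153 / 1097)) (-6) 6 (by norm_num) (by norm_num [abs_lt])
  have h2 := Real.log_two_gt_d9
  have h3 := Real.log_two_lt_d9
  simp only [Finset.sum_range_succ, Finset.sum_range_zero] at h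
  rw [abs_le] at h
  norm_num at h
  constructor <;> linarith [h.1, h.2]

theorem lg25 : -(1187021 / 100000000) < Real.log (4941 / 5000) ∧ Real.log (4941 / 5000) < -(593507 / 50000000) := by
  have h := log_bd (r := 4941 / 5000) (y := -(59 / 9941)) 0 6 (by norm_num) (by norm_num [abs_lt])
  have h2 := Real.log_two_gt_d9
  have h3 := Real.log_two_lt_d9
  simp only [Finset.sum_range_succ, Finset.sum_range_zero] at h
  rw [abs_le] at h
  norm_num at h
  constructor <;> linarith [h.1, h.2]

theorem lg26 : 41455701 / 25000000 < Real.log (21 / 4) ∧ Real.log (21 / 4) < 165822811 / 100000000 := by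
  have h := log_bd (r := 21 / 4) (y := 5 / 37) 2 6 (by norm_num) (by norm_num [abs_lt])
  have h2 := Real.log_two_gt_d9
  have h3 := Real.log_two_lt_d9
  simp only [Finset.sum_range_succ, Finset.sum_range_zero] at h
  rw [abs_le] at h
  norm_num at h
  constructor <;> linarith [h.1, h.2]

theorem lg27 : -(291802847 / 100000000) < Real.log (27020063 / 500000000) ∧ Real.log (27020063 / 500000000) < -(7295071 / 2500000) := by
  have h := log_bd (r := 27020063 / 500000000) (y := -(4229937 / 58270063)) (-4) 6 (by norm_num) (by norm_num [abs_lt])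
  have h2 := Real.log_two_gt_d9
  have h3 := Real.log_two_lt_d9
  simp only [Finset.sum_range_succ, Finset.sum_range_zero] at h
  rw [abs_le] at h
  norm_num at h
  constructor <;> linarith [h.1, h.2]

theorem lg28 : -(1388879 / 25000000) < Real.log (472979937 / 500000000) ∧ Real.log (472979937 / 500000000) < -(5555509 / 100000000) := by
  have h := log_bd (r := 472979937 / 500000000) (y := -(27020063 / 972979937)) 0 6 (by norm_num) (by norm_num [abs_lt])
  have h2 := Real.log_two_gt_d9
  have h3 := Real.log_two_lt_d9
  simp only [Finset.sum_range_succ, Finset.sum_range_zero] at h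
  rw [abs_le] at h
  norm_num at h
  constructor <;> linarith [h.1, h.2]

theorem lg29 : -(594840509 / 100000000) < Real.log (261 / 100000) ∧ Real.log (261 / 100000) < -(297420251 / 50000000) := by
  have h := log_bd (r := 261 / 100000) (y := 1051 / 7301) (-9) 6 (by norm_num) (by norm_num [abs_lt])
  have h2 := Real.log_two_gt_d9
  have h3 := Real.log_two_lt_d9
  simp only [Finset.sum_range_succ, Finset.sum_range_zero] at h
  rw [abs_le] at h
  norm_num at h
  constructor <;> linarith [h.1, h.2]

theorem lg30 : -(52269 / 20000000) < Real.log (99739 / 100000) ∧ Real.log (99739 / 100000) < -(130669 / 50000000) := by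
  have h := log_bd (r := 99739 / 100000) (y := -(261 / 199739)) 0 6 (by norm_num) (by norm_num [abs_lt])
  have h2 := Real.log_two_gt_d9
  have h3 := Real.log_two_lt_d9
  simp only [Finset.sum_range_succ, Finset.sum_range_zero] at h
  rw [abs_le] at h
  norm_num at h
  constructor <;> linarith [h.1, h.2]

theorem lg31 : 93590107 / 50000000 < Real.log (13 / 2) ∧ Real.log (13 / 2) < 187180221 / 100000000 := by
  have h := log_bd (r := 13 / 2) (y := -(3 / 29)) 3 6 (by norm_num) (by norm_num [abs_lt])
  have h2 := Real.log_two_gt_d9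
  have h3 := Real.log_two_lt_d9
  simp only [Finset.sum_range_succ, Finset.sum_range_zero] at h
  rw [abs_le] at h
  norm_num at h
  constructor <;> linarith [h.1, h.2]

theorem lg32 : -(5646249 / 1562500) < Real.log (134773267 / 5000000000) ∧ Real.log (134773267 / 5000000000) < -(361359929 / 100000000) := by
  have h := log_bd (r := 134773267 / 5000000000) (y := -(21476733 / 291023267)) (-5) 6 (by norm_num) (by norm_num [abs_lt])
  have h2 := Real.log_two_gt_d9
  have h3 := Real.log_two_lt_d9
  simp only [Finset.sum_range_succ, Finset.sum_range_zero] at h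
  rw [abs_le] at h
  norm_num at h
  constructor <;> linarith [h.1, h.2]

theorem lg33 : -(2732463 / 100000000) < Real.log (4865226733 / 5000000000) ∧ Real.log (4865226733 / 5000000000) < -(341557 / 12500000) := by
  have h := log_bd (r := 4865226733 / 5000000000) (y := -(134773267 / 9865226733)) 0 6 (by norm_num) (by norm_num [abs_lt])
  have h2 := Real.log_two_gt_d9
  have h3 := Real.log_two_lt_d9
  simp only [Finset.sum_range_succ, Finset.sum_range_zero] at h
  rw [abs_le] at h
  norm_num at h
  constructor <;> linarith [h.1, h.2]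

theorem lg34 : -(727737077 / 100000000) < Real.log (691 / 1000000) ∧ Real.log (691 / 1000000) < -(72773707 / 10000000) := by
  have h := log_bd (r := 691 / 1000000) (y := -(4569 / 26681)) (-10) 6 (by norm_num) (by norm_num [abs_lt])
  have h2 := Real.log_two_gt_d9
  have h3 := Real.log_two_lt_d9
  simp only [Finset.sum_range_succ, Finset.sum_range_zero] at h
  rw [abs_le] at h
  norm_num at h
  constructor <;> linarith [h.1, h.2]

theorem lg35 : -(69127 / 100000000) < Real.log (999309 / 1000000) ∧ Real.log (999309 / 1000000) < -(54 / 78125) := by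
  have h := log_bd (r := 999309 / 1000000) (y := -(691 / 1999309)) 0 6 (by norm_num) (by norm_num [abs_lt])
  have h2 := Real.log_two_gt_d9
  have h3 := Real.log_two_lt_d9
  simp only [Finset.sum_range_succ, Finset.sum_range_zero] at h
  rw [abs_le] at h
  norm_num at h
  constructor <;> linarith [h.1, h.2]

theorem lg36 : 211021317 / 100000000 < Real.log (33 / 4) ∧ Real.log (33 / 4) < 52755331 / 25000000 := by
  have h := log_bd (r := 33 / 4) (y := 1 / 65) 3 6 (by norm_num) (by norm_num [abs_lt])
  have h2 := Real.log_two_gt_d9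
  have h3 := Real.log_two_lt_d9
  simp only [Finset.sum_range_succ, Finset.sum_range_zero] at h
  rw [abs_le] at h
  norm_num at h
  constructor <;> linarith [h.1, h.2]

theorem lg37 : -(429936911 / 100000000) < Real.log (16971403 / 1250000000) ∧ Real.log (16971403 / 1250000000) < -(53742113 / 12500000) := by
  have h := log_bd (r := 16971403 / 1250000000) (y := -(2559847 / 36502653)) (-6) 6 (by norm_num) (by norm_num [abs_lt])
  have h2 := Real.log_two_gt_d9
  have h3 := Real.log_two_lt_d9
  simp only [Finset.sum_range_succ, Finset.sum_range_zero] at h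
  rw [abs_le] at h
  norm_num at h
  constructor <;> linarith [h.1, h.2]

theorem lg38 : -(1367017 / 100000000) < Real.log (1233028597 / 1250000000) ∧ Real.log (1233028597 / 1250000000) < -(136701 / 10000000) := by
  have h := log_bd (r := 1233028597 / 1250000000) (y := -(16971403 / 2483028597)) 0 6 (by norm_num) (by norm_num [abs_lt])
  have h2 := Real.log_two_gt_d9
  have h3 := Real.log_two_lt_d9
  simp only [Finset.sum_range_succ, Finset.sum_range_zero] at h
  rw [abs_le] at h
  norm_num at h
  constructor <;> linarith [h.1, h.2]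

theorem lg39 : -(861150391 / 100000000) < Real.log (91 / 500000) ∧ Real.log (91 / 500000) < -(53821899 / 6250000) := by
  have h := log_bd (r := 91 / 500000) (y := -(3977 / 27273)) (-12) 6 (by norm_num) (by norm_num [abs_lt])
  have h2 := Real.log_two_gt_d9
  have h3 := Real.log_two_lt_d9
  simp only [Finset.sum_range_succ, Finset.sum_range_zero] at h
  rw [abs_le] at h
  norm_num at h
  constructor <;> linarith [h.1, h.2]

theorem lg40 : -(3641 / 20000000) < Real.log (499909 / 500000) ∧ Real.log (499909 / 500000) < -(9099 / 50000000) := by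
  have h := log_bd (r := 499909 / 500000) (y := -(91 / 999909)) 0 6 (by norm_num) (by norm_num [abs_lt])
  have h2 := Real.log_two_gt_d9
  have h3 := Real.log_two_lt_d9
  simp only [Finset.sum_range_succ, Finset.sum_range_zero] at h
  rw [abs_le] at h
  norm_num at h
  constructor <;> linarith [h.1, h.2]

theorem lg41 : 59947381 / 25000000 < Real.log (11) ∧ Real.log (11) < 239789531 / 100000000 := by
  have h := log_bd (r := 11) (y := 3 / 19) 3 6 (by norm_num) (by norm_num [abs_lt])
  have h2 := Real.log_two_gt_d9
  have h3 := Real.log_two_lt_d9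
  simp only [Finset.sum_range_succ, Finset.sum_range_zero] at h
  rw [abs_le] at h
  norm_num at h
  constructor <;> linarith [h.1, h.2]

theorem lg42 : -(62657807 / 12500000) < Real.log (83167729 / 12500000000) ∧ Real.log (83167729 / 12500000000) < -(501262449 / 100000000) := by
  have h := log_bd (r := 83167729 / 12500000000) (y := -(14488521 / 180823979)) (-7) 6 (by norm_num) (by norm_num [abs_lt])
  have h2 := Real.log_two_gt_d9
  have h3 := Real.log_two_lt_d9
  simp only [Finset.sum_range_succ, Finset.sum_range_zero] at h
  rw [abs_le] at h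
  norm_num at h
  constructor <;> linarith [h.1, h.2]

theorem lg43 : -(667569 / 100000000) < Real.log (12416832271 / 12500000000) ∧ Real.log (12416832271 / 12500000000) < -(333781 / 50000000) := by
  have h := log_bd (r := 12416832271 / 12500000000) (y := -(83167729 / 24916832271)) 0 6 (by norm_num) (by norm_num [abs_lt])
  have h2 := Real.log_two_gt_d9
  have h3 := Real.log_two_lt_d9
  simp only [Finset.sum_range_succ, Finset.sum_range_zero] at h
  rw [abs_le] at h
  norm_num at h
  constructor <;> linarith [h.1, h.2]

theorem lg44 : -(15673939 / 1562500) < Real.log (11 / 250000) ∧ Real.log (11 / 250000) < -(1003132089 / 100000000) := by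
  have h := log_bd (r := 11 / 250000) (y := -(4361 / 26889)) (-14) 6 (by norm_num) (by norm_num [abs_lt])
  have h2 := Real.log_two_gt_d9
  have h3 := Real.log_two_lt_d9
  simp only [Finset.sum_range_succ, Finset.sum_range_zero] at h
  rw [abs_le] at h
  norm_num at h
  constructor <;> linarith [h.1, h.2]

theorem lg45 : -(1101 / 25000000) < Real.log (249989 / 250000) ∧ Real.log (249989 / 250000) < -(4397 / 100000000) := by
  have h := log_bd (r := 249989 / 250000) (y := -(11 / 499989)) 0 6 (by norm_num) (by norm_num [abs_lt])
  have h2 := Real.log_two_gt_d9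
  have h3 := Real.log_two_lt_d9
  simp only [Finset.sum_range_succ, Finset.sum_range_zero] at h
  rw [abs_le] at h
  norm_num at h
  constructor <;> linarith [h.1, h.2]

theorem lg46 : 272457947 / 100000000 < Real.log (61 / 4) ∧ Real.log (61 / 4) < 136228977 / 50000000 := by
  have h := log_bd (r := 61 / 4) (y := -(3 / 125)) 4 6 (by norm_num) (by norm_num [abs_lt])
  have h2 := Real.log_two_gt_d9
  have h3 := Real.log_two_lt_d9
  simp only [Finset.sum_range_succ, Finset.sum_range_zero] at h
  rw [abs_le] at h
  norm_num at h
  constructor <;> linarith [h.1, h.2]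

theorem lg47 : -(145145381 / 25000000) < Real.log (301 / 100000) ∧ Real.log (301 / 100000) < -(580581517 / 100000000) := by
  have h := log_bd (r := 301 / 100000) (y := -(717 / 5533)) (-8) 6 (by norm_num) (by norm_num [abs_lt])
  have h2 := Real.log_two_gt_d9
  have h3 := Real.log_two_lt_d9
  simp only [Finset.sum_range_succ, Finset.sum_range_zero] at h
  rw [abs_le] at h
  norm_num at h
  constructor <;> linarith [h.1, h.2]

theorem lg48 : -(301457 / 100000000) < Real.log (99699 / 100000) ∧ Real.log (99699 / 100000) < -(6029 / 2000000) := by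
  have h := log_bd (r := 99699 / 100000) (y := -(301 / 199699)) 0 6 (by norm_num) (by norm_num [abs_lt])
  have h2 := Real.log_two_gt_d9
  have h3 := Real.log_two_lt_d9
  simp only [Finset.sum_range_succ, Finset.sum_range_zero] at h
  rw [abs_le] at h
  norm_num at h
  constructor <;> linarith [h.1, h.2]

theorem lg49 : 154552121 / 50000000 < Real.log (22) ∧ Real.log (22) < 309104249 / 100000000 := by
  have h := log_bd (r := 22) (y := 3 / 19) 4 6 (by norm_num) (by norm_num [abs_lt])
  have h2 := Real.log_two_gt_d9
  have h3 := Real.log_two_lt_d9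
  simp only [Finset.sum_range_succ, Finset.sum_range_zero] at h
  rw [abs_le] at h
  norm_num at h
  constructor <;> linarith [h.1, h.2]

theorem lg50 : -(331506179 / 50000000) < Real.log (33 / 25000) ∧ Real.log (33 / 25000) < -(663012351 / 100000000) := by
  have h := log_bd (r := 33 / 25000) (y := 1099 / 7349) (-10) 6 (by norm_num) (by norm_num [abs_lt])
  have h2 := Real.log_two_gt_d9
  have h3 := Real.log_two_lt_d9
  simp only [Finset.sum_range_succ, Finset.sum_range_zero] at h
  rw [abs_le] at h
  norm_num at h
  constructor <;> linarith [h.1, h.2]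

theorem lg51 : -(132091 / 100000000) < Real.log (24967 / 25000) ∧ Real.log (24967 / 25000) < -(33021 / 25000000) := by
  have h := log_bd (r := 24967 / 25000) (y := -(33 / 49967)) 0 6 (by norm_num) (by norm_num [abs_lt])
  have h2 := Real.log_two_gt_d9
  have h3 := Real.log_two_lt_d9
  simp only [Finset.sum_range_succ, Finset.sum_range_zero] at h
  rw [abs_le] at h
  norm_num at h
  constructor <;> linarith [h.1, h.2]

theorem lg52 : 352636049 / 100000000 < Real.log (34) ∧ Real.log (34) < 44079507 / 12500000 := by
  have h := log_bd (r := 34) (y := 1 / 33) 5 6 (by norm_num) (by norm_num [abs_lt])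
  have h2 := Real.log_two_gt_d9
  have h3 := Real.log_two_lt_d9
  simp only [Finset.sum_range_succ, Finset.sum_range_zero] at h
  rw [abs_le] at h
  norm_num at h
  constructor <;> linarith [h.1, h.2]

theorem lg53 : -(758699959 / 100000000) < Real.log (507 / 1000000) ∧ Real.log (507 / 1000000) < -(47418747 / 6250000) := by
  have h := log_bd (r := 507 / 1000000) (y := 599 / 31849) (-11) 6 (by norm_num) (by norm_num [abs_lt])
  have h2 := Real.log_two_gt_d9
  have h3 := Real.log_two_lt_d9
  simp only [Finset.sum_range_succ, Finset.sum_range_zero] at h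
  rw [abs_le] at h
  norm_num at h
  constructor <;> linarith [h.1, h.2]

theorem lg54 : -(12679 / 25000000) < Real.log (999493 / 1000000) ∧ Real.log (999493 / 1000000) < -(50709 / 100000000) := by
  have h := log_bd (r := 999493 / 1000000) (y := -(507 / 1999493)) 0 6 (by norm_num) (by norm_num [abs_lt])
  have h2 := Real.log_two_gt_d9
  have h3 := Real.log_two_lt_d9
  simp only [Finset.sum_range_succ, Finset.sum_range_zero] at h
  rw [abs_le] at h
  norm_num at h
  constructor <;> linarith [h.1, h.2]

theorem lg55 : 201267583 / 50000000 < Real.log (56) ∧ Real.log (56) < 402535173 / 100000000 := by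
  have h := log_bd (r := 56) (y := -(1 / 15)) 6 6 (by norm_num) (by norm_num [abs_lt])
  have h2 := Real.log_two_gt_d9
  have h3 := Real.log_two_lt_d9
  simp only [Finset.sum_range_succ, Finset.sum_range_zero] at h
  rw [abs_le] at h
  norm_num at h
  constructor <;> linarith [h.1, h.2]

theorem lg56 : -(437016839 / 50000000) < Real.log (1 / 6250) ∧ Real.log (1 / 6250) < -(874033671 / 100000000) := by
  have h := log_bd (r := 1 / 6250) (y := 971 / 7221) (-13) 6 (by norm_num) (by norm_num [abs_lt])
  have h2 := Real.log_two_gt_d9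
  have h3 := Real.log_two_lt_d9
  simp only [Finset.sum_range_succ, Finset.sum_range_zero] at h
  rw [abs_le] at h
  norm_num at h
  constructor <;> linarith [h.1, h.2]

theorem lg57 : -(3201 / 20000000) < Real.log (6249 / 6250) ∧ Real.log (6249 / 6250) < -(7999 / 50000000) := by
  have h := log_bd (r := 6249 / 6250) (y := -(1 / 12499)) 0 6 (by norm_num) (by norm_num [abs_lt])
  have h2 := Real.log_two_gt_d9
  have h3 := Real.log_two_lt_d9
  simp only [Finset.sum_range_succ, Finset.sum_range_zero] at h
  rw [abs_le] at h
  norm_num at h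
  constructor <;> linarith [h.1, h.2]

theorem lg58 : 7271813 / 1562500 < Real.log (105) ∧ Real.log (105) < 465396039 / 100000000 := by
  have h := log_bd (r := 105) (y := -(23 / 233)) 7 6 (by norm_num) (by norm_num [abs_lt])
  have h2 := Real.log_two_gt_d9
  have h3 := Real.log_two_lt_d9
  simp only [Finset.sum_range_succ, Finset.sum_range_zero] at h
  rw [abs_le] at h
  norm_num at h
  constructor <;> linarith [h.1, h.2]

theorem lg59 : -(50100107 / 5000000) < Real.log (89 / 2000000) ∧ Real.log (89 / 2000000) < -(1002002133 / 100000000) := by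
  have h := log_bd (r := 89 / 2000000) (y := -(4233 / 27017)) (-14) 6 (by norm_num) (by norm_num [abs_lt])
  have h2 := Real.log_two_gt_d9
  have h3 := Real.log_two_lt_d9
  simp only [Finset.sum_range_succ, Finset.sum_range_zero] at h
  rw [abs_le] at h
  norm_num at h
  constructor <;> linarith [h.1, h.2]

theorem lg60 : -(2227 / 50000000) < Real.log (1999911 / 2000000) ∧ Real.log (1999911 / 2000000) < -(4447 / 100000000) := by
  have h := log_bd (r := 1999911 / 2000000) (y := -(89 / 3999911)) 0 6 (by norm_num) (by norm_num [abs_lt])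
  have h2 := Real.log_two_gt_d9
  have h3 := Real.log_two_lt_d9
  simp only [Finset.sum_range_succ, Finset.sum_range_zero] at h
  rw [abs_le] at h
  norm_num at h
  constructor <;> linarith [h.1, h.2]

theorem lg61 : 529831733 / 100000000 < Real.log (200) ∧ Real.log (200) < 26491587 / 5000000 := by
  have h := log_bd (r := 200) (y := -(7 / 57)) 8 6 (by norm_num) (by norm_num [abs_lt])
  have h2 := Real.log_two_gt_d9
  have h3 := Real.log_two_lt_d9
  simp only [Finset.sum_range_succ, Finset.sum_range_zero] at h
  rw [abs_le] at h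
  norm_num at h
  constructor <;> linarith [h.1, h.2]

theorem lg62 : 110250467 / 100000000 < Real.log (30117 / 10000) ∧ Real.log (30117 / 10000) < 55125237 / 50000000 := by
  have h := log_bd (r := 30117 / 10000) (y := -(9883 / 70117)) 2 6 (by norm_num) (by norm_num [abs_lt])
  have h2 := Real.log_two_gt_d9
  have h3 := Real.log_two_lt_d9
  simp only [Finset.sum_range_succ, Finset.sum_range_zero] at h
  rw [abs_le] at h
  norm_num at h
  constructor <;> linarith [h.1, h.2]

theorem st0 : Reach 10000 (841 / 200) 1221 ((10000 : ℕ) * (13413 / 100000)) := by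
  refine reach_start (xb := 1221 / 10000) (by norm_num) (by norm_num) (by norm_num) ?_ ?_
  · linarith [lg1.2]
  · linarith [lg0.1]

theorem st1 : Reach 10000 (841 / 200) 1222 ((10000 : ℕ) * (6709 / 50000)) := by
  refine reach_flat st0 (by norm_num) (by norm_num) (by norm_num) (by norm_num) (xa := 1221 / 10000) (xb := 611 / 5000) (by norm_num)
    (by norm_num) ?_
  linarith [Real.log_two_gt_d9]

theorem st2 : Reach 10000 (841 / 200) 2700 ((10000 : ℕ) * (13763 / 50000)) := by
  refine reach_three' st1 (by norm_num) (by norm_num) (by norm_num) (by norm_num) (α := 77 / 250) (xa := 611 / 5000) (xb := 27 / 100)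
    (13763 / 50000) (by norm_num) (by norm_num) (by norm_num) (by norm_num) (by linarith [lg4.1]) (α' := 48 / 125) (by norm_num) ?_
  have h1 := lg2
  have h2 := lg3
  have h3 := lg4
  have h4 := lg5
  push_cast
  linarith [h1.1, h1.2, h2.1, h2.2, h3.1, h3.2, h4.1, h4.2]

theorem st3 : Reach 10000 (841 / 200) 4900 ((10000 : ℕ) * (22141 / 50000)) := by
  refine reach_three' st2 (by norm_num) (by norm_num) (by norm_num) (by norm_num) (α := 267 / 1000) (xa := 27 / 100) (xb := 49 / 100)
    (22141 / 50000) (by norm_num) (by norm_num) (by norm_num) (by norm_num) (by linarith [lg5.1]) (α' := 233 / 500) (by norm_num) ?_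
  have h1 := lg6
  have h2 := lg7
  have h3 := lg5
  have h4 := lg8
  push_cast
  linarith [h1.1, h1.2, h2.1, h2.2, h3.1, h3.2, h4.1, h4.2]

theorem st4 : Reach 10000 (841 / 200) 10000 ((10000 : ℕ) * (79631 / 100000)) := by
  refine reach_flat st3 (by norm_num) (by norm_num) (by norm_num) (by norm_num) (xa := 49 / 100) (xb := 1) (by norm_num)
    (by norm_num) ?_
  linarith [Real.log_two_gt_d9]

theorem st5 : Reach 10000 (841 / 200) 17500 ((10000 : ℕ) * (6017 / 5000)) := by
  refine reach_two' st4 (by norm_num) (by norm_num) (by norm_num) (by norm_num) (q := 1 / 2) (l := 3 / 8000) (κ := 19361 / 1000000)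
    (xa := 1) (xb := 7 / 4) (g := 1 / 2) (6017 / 5000) (by norm_num) (by norm_num) (by norm_num) (by norm_num) (by norm_num)
    (by norm_num) (by norm_num) (by norm_num) (g' := 1 / 2) (l' := 7997 / 8000) (Z := 480639 / 1000000) (by norm_num) (by norm_num)
    (by norm_num) (by norm_num) ?_
  have h0 := lg9
  have h1 := lg9
  have h2 := lg10
  have h3 := lg11
  have h4 := lg12
  push_cast
  rw [Real.log_one]
  linarith [h0.1, h0.2, h1.1, h1.2, h2.1, h2.2, h3.1, h3.2, h4.1, h4.2]

theorem st6 : Reach 10000 (841 / 200) 25500 ((10000 : ℕ) * (147171 / 100000)) := by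
  refine reach_two' st5 (by norm_num) (by norm_num) (by norm_num) (by norm_num) (q := 1 / 2) (l := 511 / 100000) (κ := 71301 / 1000000)
    (xa := 7 / 4) (xb := 51 / 20) (g := 1 / 2) (147171 / 100000) (by norm_num) (by norm_num) (by norm_num) (by norm_num) (by norm_num)
    (by norm_num) (by norm_num) (by norm_num) (g' := 1 / 2) (l' := 99489 / 100000) (Z := 428699 / 1000000) (by norm_num) (by norm_num)
    (by norm_num) (by norm_num) ?_
  have h0 := lg9
  have h1 := lg9
  have h2 := lg13
  have h3 := lg14
  have h4 := lg12
  have h5 := lg15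
  push_cast
  linarith [h0.1, h0.2, h1.1, h1.2, h2.1, h2.2, h3.1, h3.2, h4.1, h4.2, h5.1, h5.2]

theorem st7 : Reach 10000 (841 / 200) 34500 ((10000 : ℕ) * (165271 / 100000)) := by
  refine reach_two' st6 (by norm_num) (by norm_num) (by norm_num) (by norm_num) (q := 1 / 2) (l := 7 / 400) (κ := 32781 / 250000)
    (xa := 51 / 20) (xb := 69 / 20) (g := 1 / 2) (165271 / 100000) (by norm_num) (by norm_num) (by norm_num) (by norm_num) (by norm_num)
    (by norm_num) (by norm_num) (by norm_num) (g' := 1 / 2) (l' := 393 / 400) (Z := 92219 / 250000) (by norm_num) (by norm_num)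
    (by norm_num) (by norm_num) ?_
  have h0 := lg9
  have h1 := lg9
  have h2 := lg16
  have h3 := lg17
  have h4 := lg15
  have h5 := lg18
  push_cast
  linarith [h0.1, h0.2, h1.1, h1.2, h2.1, h2.2, h3.1, h3.2, h4.1, h4.2, h5.1, h5.2]

theorem st8 : Reach 10000 (841 / 200) 44000 ((10000 : ℕ) * (175741 / 100000)) := by
  refine reach_two' st7 (by norm_num) (by norm_num) (by norm_num) (by norm_num) (q := 1 / 2) (l := 207 / 5000) (κ := 199213 / 1000000)
    (xa := 69 / 20) (xb := 22 / 5) (g := 1 / 2) (175741 / 100000) (by norm_num) (by norm_num) (by norm_num) (by norm_num) (by norm_num)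
    (by norm_num) (by norm_num) (by norm_num) (g' := 1 / 2) (l' := 4793 / 5000) (Z := 300787 / 1000000) (by norm_num) (by norm_num)
    (by norm_num) (by norm_num) ?_
  have h0 := lg9
  have h1 := lg9
  have h2 := lg19
  have h3 := lg20
  have h4 := lg18
  have h5 := lg21
  push_cast
  linarith [h0.1, h0.2, h1.1, h1.2, h2.1, h2.2, h3.1, h3.2, h4.1, h4.2, h5.1, h5.2]

theorem st9 : Reach 10000 (841 / 200) 52500 ((10000 : ℕ) * (180833 / 100000)) := by
  refine reach_two' st8 (by norm_num) (by norm_num) (by norm_num) (by norm_num) (q := 117 / 1000) (l := 59 / 5000) (κ := 6749 / 62500)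
    (xa := 22 / 5) (xb := 21 / 4) (g := 315097 / 2500000) (180833 / 100000) (by norm_num) (by norm_num) (by norm_num) (by norm_num) (by norm_num)
    (by norm_num) (by norm_num) (by norm_num) (g' := 2184903 / 2500000) (l' := 4941 / 5000) (Z := 2531222811 / 15625000000) (by norm_num) (by norm_num)
    (by norm_num) (by norm_num) ?_
  have h0 := lg22
  have h1 := lg23
  have h2 := lg24
  have h3 := lg25
  have h4 := lg21
  have h5 := lg26
  push_cast
  linarith [h0.1, h0.2, h1.1, h1.2, h2.1, h2.2, h3.1, h3.2, h4.1, h4.2, h5.1, h5.2]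

theorem st10 : Reach 10000 (841 / 200) 65000 ((10000 : ℕ) * (92689 / 50000)) := by
  refine reach_two' st9 (by norm_num) (by norm_num) (by norm_num) (by norm_num) (q := 517 / 10000) (l := 261 / 100000) (κ := 51021 / 1000000)
    (xa := 21 / 4) (xb := 13 / 2) (g := 27020063 / 500000000) (92689 / 50000) (by norm_num) (by norm_num) (by norm_num) (by norm_num) (by norm_num)
    (by norm_num) (by norm_num) (by norm_num) (g' := 472979937 / 500000000) (l' := 99739 / 100000) (Z := 2201214282069 / 25000000000000) (by norm_num) (by norm_num)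
    (by norm_num) (by norm_num) ?_
  have h0 := lg27
  have h1 := lg28
  have h2 := lg29
  have h3 := lg30
  have h4 := lg26
  have h5 := lg31
  push_cast
  linarith [h0.1, h0.2, h1.1, h1.2, h2.1, h2.2, h3.1, h3.2, h4.1, h4.2, h5.1, h5.2]

theorem st11 : Reach 10000 (841 / 200) 82500 ((10000 : ℕ) * (94563 / 50000)) := by
  refine reach_two' st10 (by norm_num) (by norm_num) (by norm_num) (by norm_num) (q := 263 / 10000) (l := 691 / 1000000) (κ := 26277 / 1000000)
    (xa := 13 / 2) (xb := 33 / 4) (g := 134773267 / 5000000000) (94563 / 50000) (by norm_num) (by norm_num) (by norm_num) (by norm_num) (by norm_num)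
    (by norm_num) (by norm_num) (by norm_num) (g' := 4865226733 / 5000000000) (l' := 999309 / 1000000) (Z := 1213124543813 / 25000000000000) (by norm_num) (by norm_num)
    (by norm_num) (by norm_num) ?_
  have h0 := lg32
  have h1 := lg33
  have h2 := lg34
  have h3 := lg35
  have h4 := lg31
  have h5 := lg36
  push_cast
  linarith [h0.1, h0.2, h1.1, h1.2, h2.1, h2.2, h3.1, h3.2, h4.1, h4.2, h5.1, h5.2]

theorem st12 : Reach 10000 (841 / 200) 110000 ((10000 : ℕ) * (24051 / 12500)) := by
  refine reach_two' st11 (by norm_num) (by norm_num) (by norm_num) (by norm_num) (q := 67 / 5000) (l := 91 / 500000) (κ := 13489 / 1000000)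
    (xa := 33 / 4) (xb := 11) (g := 16971403 / 1250000000) (24051 / 12500) (by norm_num) (by norm_num) (by norm_num) (by norm_num) (by norm_num)
    (by norm_num) (by norm_num) (by norm_num) (g' := 1233028597 / 1250000000) (l' := 499909 / 500000) (Z := 160797237121 / 6250000000000) (by norm_num) (by norm_num)
    (by norm_num) (by norm_num) ?_
  have h0 := lg37
  have h1 := lg38
  have h2 := lg39
  have h3 := lg40
  have h4 := lg36
  have h5 := lg41
  push_cast
  linarith [h0.1, h0.2, h1.1, h1.2, h2.1, h2.2, h3.1, h3.2, h4.1, h4.2, h5.1, h5.2]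

theorem st13 : Reach 10000 (841 / 200) 152500 ((10000 : ℕ) * (97519 / 50000)) := by
  refine reach_two' st12 (by norm_num) (by norm_num) (by norm_num) (by norm_num) (q := 661 / 100000) (l := 11 / 250000) (κ := 6633 / 1000000)
    (xa := 11) (xb := 61 / 4) (g := 83167729 / 12500000000) (97519 / 50000) (by norm_num) (by norm_num) (by norm_num) (by norm_num) (by norm_num)
    (by norm_num) (by norm_num) (by norm_num) (g' := 12416832271 / 12500000000) (l' := 249989 / 250000) (Z := 32395996296993 / 2500000000000000) (by norm_num) (by norm_num)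
    (by norm_num) (by norm_num) ?_
  have h0 := lg42
  have h1 := lg43
  have h2 := lg44
  have h3 := lg45
  have h4 := lg41
  have h5 := lg46
  push_cast
  linarith [h0.1, h0.2, h1.1, h1.2, h2.1, h2.2, h3.1, h3.2, h4.1, h4.2, h5.1, h5.2]

theorem st14 : Reach 10000 (841 / 200) 220000 ((10000 : ℕ) * (49259 / 25000)) := by
  refine reach_two' st13 (by norm_num) (by norm_num) (by norm_num) (by norm_num) (q := 301 / 100000) (l := 0) (κ := 0)
    (xa := 61 / 4) (xb := 22) (g := 301 / 100000) (49259 / 25000) (by norm_num) (by norm_num) (by norm_num) (by norm_num) (by norm_num)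
    (by norm_num) (by norm_num) (by norm_num) (g' := 99699 / 100000) (l' := 1) (Z := 30009399 / 5000000000) (by norm_num) (by norm_num)
    (by norm_num) (by norm_num) ?_
  have h0 := lg47
  have h1 := lg48
  have h2 := lg46
  have h3 := lg49
  push_cast
  rw [Real.log_zero, Real.log_one]
  linarith [h0.1, h0.2, h1.1, h1.2, h2.1, h2.2, h3.1, h3.2]

theorem st15 : Reach 10000 (841 / 200) 340000 ((10000 : ℕ) * (99301 / 50000)) := by
  refine reach_two' st14 (by norm_num) (by norm_num) (by norm_num) (by norm_num) (q := 33 / 25000) (l := 0) (κ := 0)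
    (xa := 22) (xb := 34) (g := 33 / 25000) (99301 / 50000) (by norm_num) (by norm_num) (by norm_num) (by norm_num) (by norm_num)
    (by norm_num) (by norm_num) (by norm_num) (g' := 24967 / 25000) (l' := 1) (Z := 823911 / 312500000) (by norm_num) (by norm_num)
    (by norm_num) (by norm_num) ?_
  have h0 := lg50
  have h1 := lg51
  have h2 := lg49
  have h3 := lg52
  push_cast
  rw [Real.log_zero, Real.log_one]
  linarith [h0.1, h0.2, h1.1, h1.2, h2.1, h2.2, h3.1, h3.2]

theorem st16 : Reach 10000 (841 / 200) 560000 ((10000 : ℕ) * (199713 / 100000)) := by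
  refine reach_two' st15 (by norm_num) (by norm_num) (by norm_num) (by norm_num) (q := 507 / 1000000) (l := 0) (κ := 0)
    (xa := 34) (xb := 56) (g := 507 / 1000000) (199713 / 100000) (by norm_num) (by norm_num) (by norm_num) (by norm_num) (by norm_num)
    (by norm_num) (by norm_num) (by norm_num) (g' := 999493 / 1000000) (l' := 1) (Z := 506742951 / 500000000000) (by norm_num) (by norm_num)
    (by norm_num) (by norm_num) ?_
  have h0 := lg53
  have h1 := lg54
  have h2 := lg52
  have h3 := lg55
  push_cast
  rw [Real.log_zero, Real.log_one]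
  linarith [h0.1, h0.2, h1.1, h1.2, h2.1, h2.2, h3.1, h3.2]

theorem st17 : Reach 10000 (841 / 200) 1050000 ((10000 : ℕ) * (200493 / 100000)) := by
  refine reach_two' st16 (by norm_num) (by norm_num) (by norm_num) (by norm_num) (q := 1 / 6250) (l := 0) (κ := 0)
    (xa := 56) (xb := 105) (g := 1 / 6250) (200493 / 100000) (by norm_num) (by norm_num) (by norm_num) (by norm_num) (by norm_num)
    (by norm_num) (by norm_num) (by norm_num) (g' := 6249 / 6250) (l' := 1) (Z := 6249 / 19531250) (by norm_num) (by norm_num)
    (by norm_num) (by norm_num) ?_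
  have h0 := lg56
  have h1 := lg57
  have h2 := lg55
  have h3 := lg58
  push_cast
  rw [Real.log_zero, Real.log_one]
  linarith [h0.1, h0.2, h1.1, h1.2, h2.1, h2.2, h3.1, h3.2]

theorem st18 : Reach 10000 (841 / 200) 2000000 ((10000 : ℕ) * (100457 / 50000)) := by
  refine reach_two' st17 (by norm_num) (by norm_num) (by norm_num) (by norm_num) (q := 89 / 2000000) (l := 0) (κ := 0)
    (xa := 105) (xb := 200) (g := 89 / 2000000) (100457 / 50000) (by norm_num) (by norm_num) (by norm_num) (by norm_num) (by norm_num)
    (by norm_num) (by norm_num) (by norm_num) (g' := 1999911 / 2000000) (l' := 1) (Z := 177992079 / 2000000000000) (by norm_num) (by norm_num)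
    (by norm_num) (by norm_num) ?_
  have h0 := lg59
  have h1 := lg60
  have h2 := lg58
  have h3 := lg61
  push_cast
  rw [Real.log_zero, Real.log_one]
  linarith [h0.1, h0.2, h1.1, h1.2, h2.1, h2.2, h3.1, h3.2]

theorem exp_bd : Real.exp (841 / 200 / 2 - 1) < 30117 / 10000 := by
  rw [← Real.lt_log_iff_exp_lt (by norm_num)]
  linarith [lg62.1]

/-- the family -/
theorem family : ∃ F : Fam 10000 2000000 (841 / 200), 2 / 3 * Real.exp (841 / 200 / 2 - 1) < (F.C - F.En) / (10000 : ℕ) := by
  obtain ⟨F, hF⟩ := st18
  refine ⟨F, ?_⟩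
  have h := exp_bd
  rw [lt_div_iff₀ (by norm_num)]
  push_cast at hF ⊢
  linarith

end Pool.Agent.H610.AbcH
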