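import Pool.Agent.H610.AbcH.Comb
import Pool.Graph.R_pool_sql_team_seeded_64922ed1.X2.AbcH3

/-!
# From two exponent vectors to an admissible triple
-/

set_option autoImplicit false

open Finset

namespace Pool.Agent.H610.AbcH

open Pool.Agent.X2.AbcH (gam H gam_pos gam_mul gam_le)

/-- the radical of the triple `u - v, v, u` -/
theorem triple2 {u v m : ℕ} (hv0 : 0 < v) (hlt : v < u) (hcop : Nat.Coprime u v) (hm : 1 ≤ m)
    (hdvd : 2 ^ m ∣ u - v) :
    Nat.Coprime (u - v) v ∧
    u.primeFactors.card + v.primeFactors.card ≤ ((u - v) * v * u).primeFactors.card ∧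
    gam u * gam v ≤ gam ((u - v) * v * u) ∧
    gam ((u - v) * v * u) * 2 ^ m ≤ 2 * u * (gam u * gam v) := by
  have h1 : Nat.Coprime (u - v) v := by
    rw [Nat.coprime_sub_self_left hlt.le]
    exact hcop
  have h2 : Nat.Coprime (u - v) u := by
    have e : u = v + (u - v) := by omega
    rw [e, Nat.add_sub_cancel_left]
    rw [Nat.coprime_add_self_right]
    exact h1
  have h3 : Nat.Coprime ((u - v) * v) u := Nat.Coprime.mul_left h2 hcop.symm
  refine ⟨h1, ?_, ?_, ?_⟩
  · rw [h3.primeFactors_mul, card_union_of_disjoint h3.disjoint_primeFactors, h1.primeFactors_mul,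
      card_union_of_disjoint h1.disjoint_primeFactors]
    omega
  · rw [gam_mul h3, gam_mul h1]
    have := gam_pos (u - v)
    calc gam u * gam v = 1 * gam v * gam u := by ring
      _ ≤ _ := by gcongr; exact this
  · rw [gam_mul h3, gam_mul h1]
    obtain ⟨r, hr⟩ := hdvd
    have hr0 : 0 < r := by
      rcases Nat.eq_zero_or_pos r with h | h
      · rw [h, mul_zero] at hr; omega
      · exact h
    have h4 : gam (u - v) ≤ 2 * r := by
      have h5 : gam (u - v) = gam (2 * r) := by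
        unfold gam
        rw [hr, Nat.primeFactors_mul (by positivity) hr0.ne', Nat.primeFactors_pow _ (by omega),
          Nat.primeFactors_mul (by norm_num) hr0.ne']
      rw [h5]
      exact gam_le (by positivity)
    calc gam (u - v) * gam v * gam u * 2 ^ m ≤ (2 * r) * gam v * gam u * 2 ^ m := by gcongr
      _ = 2 * (2 ^ m * r) * (gam u * gam v) := by ring
      _ ≤ 2 * u * (gam u * gam v) := by
          rw [← hr]
          gcongr
          omega

theorem primeFactors_val {ι : Type} [Fintype ι] [DecidableEq ι] {pr : ι → ℕ}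
    (hp : ∀ i, (pr i).Prime) (e : ι → ℕ) :
    (∏ i, pr i ^ e i).primeFactors = (univ.filter fun i => e i ≠ 0).image pr := by
  ext p
  have h0 : ∏ i, pr i ^ e i ≠ 0 := prod_ne_zero_iff.2 fun i _ => pow_ne_zero _ (hp i).ne_zero
  rw [Nat.mem_primeFactors, mem_image]
  constructor
  · rintro ⟨hpp, hdvd, -⟩
    obtain ⟨i, -, hi⟩ := (Prime.dvd_finsetProd_iff hpp.prime _).1 hdvd
    have h1 := hpp.dvd_of_dvd_pow hi
    have h2 := (Nat.prime_dvd_prime_iff_eq hpp (hp i)).1 h1
    refine ⟨i, ?_, h2.symm⟩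
    rw [mem_filter]
    refine ⟨mem_univ i, fun h => ?_⟩
    rw [h, pow_zero] at hi
    exact hpp.one_lt.ne' (Nat.dvd_one.1 hi)
  · rintro ⟨i, hi, rfl⟩
    rw [mem_filter] at hi
    exact ⟨hp i, (dvd_pow_self _ hi.2).trans (dvd_prod_of_mem _ (mem_univ i)), h0⟩

theorem card_gam_val {ι : Type} [Fintype ι] [DecidableEq ι] {pr : ι → ℕ}
    (hp : ∀ i, (pr i).Prime) (hinj : Function.Injective pr) (e : ι → ℕ) :
    (∏ i, pr i ^ e i).primeFactors.card = (univ.filter fun i => e i ≠ 0).card ∧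
      gam (∏ i, pr i ^ e i) = ∏ i ∈ univ.filter (fun i => e i ≠ 0), pr i := by
  constructor
  · rw [primeFactors_val hp, card_image_of_injective _ hinj]
  · unfold gam
    rw [primeFactors_val hp, prod_image (fun a _ b _ h => hinj h)]

theorem log_val {ι : Type} [Fintype ι] {pr : ι → ℕ} (hp : ∀ i, (pr i).Prime) (e : ι → ℕ) :
    Real.log ((∏ i, pr i ^ e i : ℕ) : ℝ) = ∑ i, (e i : ℝ) * Real.log (pr i) := by
  rw [Nat.cast_prod, Real.log_prod]
  · exact sum_congr rfl fun i _ => by rw [Nat.cast_pow, Real.log_pow]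
  · intro i _
    have := (hp i).pos
    positivity

/-- the triple made of two exponent vectors -/
theorem pair {ι : Type} [Fintype ι] [DecidableEq ι] {pr : ι → ℕ} (hp : ∀ i, (pr i).Prime ∧ pr i ≠ 2)
    (hinj : Function.Injective pr) {x y : ι → ℕ} (hxy : x ≠ y) {m : ℕ} (hm : 1 ≤ m)
    (hmod : (∏ i, pr i ^ x i) % 2 ^ m = (∏ i, pr i ^ y i) % 2 ^ m)
    (hsize : |∑ i, (x i : ℝ) * Real.log (pr i) - ∑ i, (y i : ℝ) * Real.log (pr i)| < 1) :
    ∃ u v : ℕ, 0 < v ∧ v < u ∧ 2 ^ m ≤ u ∧ Nat.Coprime (u - v) v ∧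
      ((univ.filter fun i => x i ≠ y i).card ≤ ((u - v) * v * u).primeFactors.card) ∧
      (∏ i ∈ univ.filter (fun i => x i ≠ y i), pr i ≤ gam ((u - v) * v * u)) ∧
      (gam ((u - v) * v * u) * 2 ^ m ≤ 2 * u * ∏ i ∈ univ.filter (fun i => x i ≠ y i), pr i) ∧
      Real.log u + Real.log v = ∑ i, |(x i : ℝ) - (y i : ℝ)| * Real.log (pr i) ∧
      Real.log u < Real.log v + 1 := by
  have hp1 : ∀ i, (pr i).Prime := fun i => (hp i).1
  -- it is enough to treat one order
  suffices key : ∀ x y : ι → ℕ, ∏ i, pr i ^ y i < ∏ i, pr i ^ x i →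
      (∏ i, pr i ^ x i) % 2 ^ m = (∏ i, pr i ^ y i) % 2 ^ m →
      |∑ i, (x i : ℝ) * Real.log (pr i) - ∑ i, (y i : ℝ) * Real.log (pr i)| < 1 →
      ∃ u v : ℕ, 0 < v ∧ v < u ∧ 2 ^ m ≤ u ∧ Nat.Coprime (u - v) v ∧
      ((univ.filter fun i => x i ≠ y i).card ≤ ((u - v) * v * u).primeFactors.card) ∧
      (∏ i ∈ univ.filter (fun i => x i ≠ y i), pr i ≤ gam ((u - v) * v * u)) ∧
      (gam ((u - v) * v * u) * 2 ^ m ≤ 2 * u * ∏ i ∈ univ.filter (fun i => x i ≠ y i), pr i) ∧
      Real.log u + Real.log v = ∑ i, |(x i : ℝ) - (y i : ℝ)| * Real.log (pr i) ∧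
      Real.log u < Real.log v + 1 by
    rcases lt_trichotomy (∏ i, pr i ^ y i) (∏ i, pr i ^ x i) with h | h | h
    · exact key x y h hmod hsize
    · exact absurd (val_inj hp1 hinj h).symm hxy
    · have h1 := key y x h hmod.symm (by rw [abs_sub_comm]; exact hsize)
      have e1 : (univ.filter fun i => y i ≠ x i) = univ.filter fun i => x i ≠ y i := by
        ext i; simp only [mem_filter, ne_comm]
      have e2 : ∀ i, |(y i : ℝ) - (x i : ℝ)| = |(x i : ℝ) - (y i : ℝ)| := fun i => abs_sub_comm _ _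
      rw [e1] at h1
      simp only [e2] at h1
      exact h1
  intro x y hlt hmod hsize
  set g : ℕ := ∏ i, pr i ^ (min (x i) (y i)) with hg
  set u : ℕ := ∏ i, pr i ^ (x i - y i) with hu
  set v : ℕ := ∏ i, pr i ^ (y i - x i) with hv
  have hgu : g * u = ∏ i, pr i ^ x i := by
    rw [hg, hu, ← prod_mul_distrib]
    refine prod_congr rfl fun i _ => ?_
    rw [← pow_add]; congr 1; omega
  have hgv : g * v = ∏ i, pr i ^ y i := by
    rw [hg, hv, ← prod_mul_distrib]
    refine prod_congr rfl fun i _ => ?_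
    rw [← pow_add]; congr 1; omega
  have hg0 : 0 < g := prod_pos fun i _ => pow_pos (hp1 i).pos _
  have hu0 : 0 < u := prod_pos fun i _ => pow_pos (hp1 i).pos _
  have hv0 : 0 < v := prod_pos fun i _ => pow_pos (hp1 i).pos _
  have hvu : v < u := by
    rw [← hgu, ← hgv] at hlt
    exact Nat.lt_of_mul_lt_mul_left hlt
  have hcop2 : Nat.Coprime (2 ^ m) g := by
    apply Nat.Coprime.pow_left
    apply Nat.Coprime.prod_right
    intro i _
    apply Nat.Coprime.pow_right
    exact (Nat.coprime_primes Nat.prime_two (hp1 i)).2 (Ne.symm (hp i).2)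
  have hdvd : 2 ^ m ∣ u - v := by
    have h5 : 2 ^ m ∣ g * u - g * v := by
      rw [← Nat.modEq_iff_dvd' (Nat.mul_le_mul_left g hvu.le), hgu, hgv]
      exact hmod.symm
    rw [← Nat.mul_sub] at h5
    exact hcop2.dvd_of_dvd_mul_left h5
  obtain ⟨cu, gu⟩ := card_gam_val hp1 hinj fun i => x i - y i
  obtain ⟨cv, gv⟩ := card_gam_val hp1 hinj fun i => y i - x i
  have hdisj : Disjoint (univ.filter fun i => x i - y i ≠ 0) (univ.filter fun i => y i - x i ≠ 0) := by
    rw [disjoint_filter]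
    intro i _ h1 h2
    omega
  have hunion : (univ.filter fun i => x i - y i ≠ 0) ∪ (univ.filter fun i => y i - x i ≠ 0) =
      univ.filter fun i => x i ≠ y i := by
    ext i
    simp only [mem_union, mem_filter, mem_univ, true_and]
    omega
  have hcop : Nat.Coprime u v := by
    rw [← Nat.disjoint_primeFactors hu0.ne' hv0.ne', hu, hv, primeFactors_val hp1, primeFactors_val hp1,
      disjoint_image hinj]
    exact hdisj
  obtain ⟨t1, t2, t3, t4⟩ := triple2 hv0 hvu hcop hm hdvd
  have ec : u.primeFactors.card + v.primeFactors.card = (univ.filter fun i => x i ≠ y i).card := by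
    rw [hu, hv, cu, cv, ← card_union_of_disjoint hdisj, hunion]
  have eg : gam u * gam v = ∏ i ∈ univ.filter (fun i => x i ≠ y i), pr i := by
    rw [hu, hv, gu, gv, ← prod_union hdisj, hunion]
  rw [ec] at t2
  rw [eg] at t3 t4
  have lu := log_val hp1 fun i => x i - y i
  have lv := log_val hp1 fun i => y i - x i
  have lx := log_val hp1 x
  have ly := log_val hp1 y
  have lgu : Real.log ((g : ℕ) : ℝ) + Real.log (u : ℝ) = ∑ i, (x i : ℝ) * Real.log (pr i) := by
    rw [← lx, ← hgu, Nat.cast_mul, Real.log_mul (by positivity) (by positivity)]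
  have lgv : Real.log ((g : ℕ) : ℝ) + Real.log (v : ℝ) = ∑ i, (y i : ℝ) * Real.log (pr i) := by
    rw [← ly, ← hgv, Nat.cast_mul, Real.log_mul (by positivity) (by positivity)]
  refine ⟨u, v, hv0, hvu, ?_, t1, t2, t3, t4, ?_, ?_⟩
  · have := Nat.le_of_dvd (by omega) hdvd
    omega
  · rw [hu, hv, lu, lv, ← sum_add_distrib]
    refine sum_congr rfl fun i _ => ?_
    rw [← add_mul]
    congr 1
    rcases le_total (x i) (y i) with h | h
    · have h' : (x i : ℝ) ≤ y i := by exact_mod_cast h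
      rw [Nat.sub_eq_zero_of_le h, Nat.cast_sub h, Nat.cast_zero, abs_sub_comm,
        abs_of_nonneg (by linarith)]
      ring
    · have h' : (y i : ℝ) ≤ x i := by exact_mod_cast h
      rw [Nat.sub_eq_zero_of_le h, Nat.cast_sub h, Nat.cast_zero, abs_of_nonneg (by linarith)]
      ring
  · rw [← lgu, ← lgv, abs_lt] at hsize
    linarith [hsize.2]

end Pool.Agent.H610.AbcH
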