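import Pool.Graph.R_seed8.H390R2.LP.Main

/-!
# The product of finitely many different one-site states
-/

set_option autoImplicit false

open Finset

namespace Pool.Agent.H610.AbcH

open Pool.Agent.H390R2.LP

variable {Ω X : Type} [Fintype Ω] [DecidableEq Ω] {K : ℕ}

theorem marg {A : Type} [Fintype A] (p : Fin K → A → ℝ) (hp : ∀ j, ∑ o, p j o = 1) (k : Fin K)
    (ψ : A → ℝ) : ∑ a : Fin K → A, (∏ j, p j (a j)) * ψ (a k) = ∑ o, p k o * ψ o := by
  classical
  have h1 : ∀ a : Fin K → A, (∏ j, p j (a j)) * ψ (a k) =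
      ∏ j, (p j (a j) * if j = k then ψ (a j) else 1) := by
    intro a
    rw [prod_mul_distrib]
    simp
  simp only [h1]
  rw [sum_prod fun j o => p j o * if j = k then ψ o else 1,
    ← mul_prod_erase univ _ (mem_univ k)]
  have h2 : ∏ j ∈ univ.erase k, ∑ o, p j o * (if j = k then ψ o else 1) = 1 := by
    refine prod_eq_one fun j hj => ?_
    rw [mem_erase] at hj
    simp [hj.1, hp j]
  rw [h2, mul_one]
  simp

theorem negMulLog_prod {A : Type} (t : Finset A) (x : A → ℝ) :
    Real.negMulLog (∏ i ∈ t, x i) = ∑ i ∈ t, (∏ j ∈ t, x j) * (-Real.log (x i)) := by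
  by_cases h : ∃ i ∈ t, x i = 0
  · obtain ⟨i, hi, h0⟩ := h
    have : ∏ j ∈ t, x j = 0 := prod_eq_zero hi h0
    simp [this]
  · push Not at h
    unfold Real.negMulLog
    rw [Real.log_prod h, ← mul_sum, sum_neg_distrib]
    ring

theorem entropy_prod {A : Type} [Fintype A] (p : Fin K → A → ℝ) (hp : ∀ j, ∑ o, p j o = 1) :
    ∑ a : Fin K → A, Real.negMulLog (∏ j, p j (a j)) = ∑ j, ∑ o, Real.negMulLog (p j o) := by
  simp only [negMulLog_prod]
  rw [sum_comm]
  refine sum_congr rfl fun k _ => ?_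
  have := marg p hp k fun o => -Real.log (p k o)
  rw [this]
  exact sum_congr rfl fun o _ => by unfold Real.negMulLog; ring

/-- the product of one-site states -/
noncomputable def piSite (s : Fin K → Site Ω X) : Site (Fin K → Ω) (Fin K → X) where
  pos ω k := (s k).pos (ω k)
  u a ω := ∏ k, (s k).u (a k) (ω k)
  w c ω := ∏ k, (s k).w (c k) (ω k)
  lam a := ∏ k, (s k).lam (a k)
  g c := ∏ k, (s k).g (c k)
  lab c k := (s k).lab (c k)
  u_orth := by
    intro a b
    simp only [← prod_mul_distrib]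
    rw [sum_prod fun k o => (s k).u (a k) o * (s k).u (b k) o]
    simp only [(s _).u_orth]
    rw [prod_ite a b fun _ => 1]
    simp
  w_orth := by
    intro a b
    simp only [← prod_mul_distrib]
    rw [sum_prod fun k o => (s k).w (a k) o * (s k).w (b k) o]
    simp only [(s _).w_orth]
    rw [prod_ite a b fun _ => 1]
    simp
  lam_nonneg a := prod_nonneg fun _ _ => (s _).lam_nonneg _
  lam_sum := by
    rw [sum_prod fun k o => (s k).lam o]
    simp [(s _).lam_sum]
  w_supp := by
    intro c ω h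
    obtain ⟨k, hk⟩ := Function.ne_iff.mp h
    exact prod_eq_zero (mem_univ k) ((s k).w_supp _ _ hk)
  w_diag := by
    intro c c' h
    have h0 : ∀ a c : Fin K → Ω, ∑ ω : Fin K → Ω, (∏ k, (s k).u (a k) (ω k)) * ∏ k, (s k).w (c k) (ω k) =
        ∏ k, ∑ o, (s k).u (a k) o * (s k).w (c k) o := by
      intro a c
      simp only [← prod_mul_distrib]
      exact sum_prod fun k o => (s k).u (a k) o * (s k).w (c k) o
    simp only [h0]
    simp only [← prod_mul_distrib]
    rw [sum_prod fun k o => (s k).lam o * (∑ o', (s k).u o o' * (s k).w (c k) o') *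
      (∑ o', (s k).u o o' * (s k).w (c' k) o')]
    have h2 : ∀ k, ∑ o, (s k).lam o * (∑ o', (s k).u o o' * (s k).w (c k) o') *
        (∑ o', (s k).u o o' * (s k).w (c' k) o') = if c k = c' k then (s k).g (c k) else 0 := fun k =>
      (s k).w_diag _ _ (congrFun h k)
    simp only [h2]
    exact prod_ite c c' fun k => (s k).g (c k)

theorem piSite_S (s : Fin K → Site Ω X) : (piSite s).S = ∑ k, (s k).S :=
  entropy_prod (fun k o => (s k).lam o) fun k => (s k).lam_sum

theorem piSite_h (s : Fin K → Site Ω X) : (piSite s).h = ∑ k, (s k).h :=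
  entropy_prod (fun k o => (s k).g o) fun k => Pool.Agent.H703R2.LP.site_g_sum (s k)

theorem pi_one (s : Fin K → Site Ω X) (φ : Ω → ℝ) (k : Fin K) (a b : Fin K → Ω) :
    ∑ ω : Fin K → Ω, (∏ l, (s l).u (a l) (ω l)) * φ (ω k) * (∏ l, (s l).u (b l) (ω l)) =
      (∑ o, (s k).u (a k) o * φ o * (s k).u (b k) o) *
        ∏ l ∈ univ.erase k, (if a l = b l then 1 else 0) := by
  have h1 : ∀ ω : Fin K → Ω, (∏ l, (s l).u (a l) (ω l)) * φ (ω k) * (∏ l, (s l).u (b l) (ω l)) =
      ∏ l, ((s l).u (a l) (ω l) * (if l = k then φ (ω l) else 1) * (s l).u (b l) (ω l)) := by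
    intro ω
    rw [prod_mul_distrib, prod_mul_distrib]
    simp
  simp only [h1]
  rw [sum_prod fun l o => (s l).u (a l) o * (if l = k then φ o else 1) * (s l).u (b l) o,
    ← mul_prod_erase univ _ (mem_univ k)]
  congr 1
  · simp
  · refine prod_congr rfl fun l hl => ?_
    rw [mem_erase] at hl
    simp only [hl.1, if_false, mul_one]
    exact (s l).u_orth _ _

theorem pi_overlap (s : Fin K → Site Ω X) (φ : Ω → ℝ) (k : Fin K) :
    ∑ a : Fin K → Ω, ∑ b : Fin K → Ω, √((∏ l, (s l).lam (a l)) * ∏ l, (s l).lam (b l)) *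
      (∑ ω : Fin K → Ω, (∏ l, (s l).u (a l) (ω l)) * φ (ω k) * (∏ l, (s l).u (b l) (ω l))) ^ 2 =
      ∑ a, ∑ b, √((s k).lam a * (s k).lam b) * (∑ o, (s k).u a o * φ o * (s k).u b o) ^ 2 := by
  have h1 : ∀ a b : Fin K → Ω, √((∏ l, (s l).lam (a l)) * ∏ l, (s l).lam (b l)) *
      (∑ ω : Fin K → Ω, (∏ l, (s l).u (a l) (ω l)) * φ (ω k) * (∏ l, (s l).u (b l) (ω l))) ^ 2 =
      ∏ l, (if l = k then √((s l).lam (a l) * (s l).lam (b l)) *
        (∑ o, (s l).u (a l) o * φ o * (s l).u (b l) o) ^ 2 else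
          (if a l = b l then (s l).lam (a l) else 0)) := by
    intro a b
    symm
    rw [← mul_prod_erase univ _ (mem_univ k), if_pos rfl]
    symm
    rw [pi_one]
    have h2 : ∏ l ∈ univ.erase k, (if l = k then √((s l).lam (a l) * (s l).lam (b l)) *
        (∑ o, (s l).u (a l) o * φ o * (s l).u (b l) o) ^ 2 else
          (if a l = b l then (s l).lam (a l) else 0)) =
        ∏ l ∈ univ.erase k, (if a l = b l then (s l).lam (a l) else 0) := by
      refine prod_congr rfl fun l hl => ?_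
      rw [mem_erase] at hl
      rw [if_neg hl.1]
    rw [h2]
    have h3 : √((∏ l, (s l).lam (a l)) * ∏ l, (s l).lam (b l)) =
        √((s k).lam (a k) * (s k).lam (b k)) *
        ∏ l ∈ univ.erase k, √((s l).lam (a l) * (s l).lam (b l)) := by
      rw [← prod_mul_distrib, mul_prod_erase univ
        (fun l => √((s l).lam (a l) * (s l).lam (b l))) (mem_univ k)]
      exact Real.sqrt_prod _ fun l _ => mul_nonneg ((s l).lam_nonneg _) ((s l).lam_nonneg _)
    rw [h3]
    have h4 : (∏ l ∈ univ.erase k, √((s l).lam (a l) * (s l).lam (b l))) *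
        (∏ l ∈ univ.erase k, (if a l = b l then (1:ℝ) else 0)) ^ 2 =
        ∏ l ∈ univ.erase k, (if a l = b l then (s l).lam (a l) else 0) := by
      rw [← prod_pow, ← prod_mul_distrib]
      refine prod_congr rfl fun l _ => ?_
      by_cases h : a l = b l
      · rw [if_pos h, if_pos h, h, Real.sqrt_mul_self ((s l).lam_nonneg _)]; ring
      · rw [if_neg h, if_neg h]; ring
    rw [← h4]; ring
  simp only [h1]
  have h5 : ∀ a : Fin K → Ω, ∑ b : Fin K → Ω,
      ∏ l, (if l = k then √((s l).lam (a l) * (s l).lam (b l)) *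
        (∑ o, (s l).u (a l) o * φ o * (s l).u (b l) o) ^ 2 else
          (if a l = b l then (s l).lam (a l) else 0)) =
      ∏ l, (if l = k then ∑ o', √((s l).lam (a l) * (s l).lam o') *
        (∑ o, (s l).u (a l) o * φ o * (s l).u o' o) ^ 2 else (s l).lam (a l)) := by
    intro a
    rw [sum_prod fun l o' => (if l = k then √((s l).lam (a l) * (s l).lam o') *
        (∑ o, (s l).u (a l) o * φ o * (s l).u o' o) ^ 2 else
          (if a l = o' then (s l).lam (a l) else 0))]
    refine prod_congr rfl fun l _ => ?_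
    by_cases h : l = k
    · simp [h]
    · simp [h]
  simp only [h5]
  rw [sum_prod fun l o'' => (if l = k then ∑ o', √((s l).lam o'' * (s l).lam o') *
        (∑ o, (s l).u o'' o * φ o * (s l).u o' o) ^ 2 else (s l).lam o''),
    ← mul_prod_erase univ _ (mem_univ k)]
  have h6 : ∏ l ∈ univ.erase k, ∑ o'', (if l = k then ∑ o', √((s l).lam o'' * (s l).lam o') *
        (∑ o, (s l).u o'' o * φ o * (s l).u o' o) ^ 2 else (s l).lam o'') = 1 := by
    refine prod_eq_one fun l hl => ?_
    rw [mem_erase] at hl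
    simp [hl.1, (s l).lam_sum]
  rw [h6, mul_one]
  simp

theorem pi_moment (s : Fin K → Site Ω X) (φ : Ω → ℝ) (k : Fin K) :
    ∑ a : Fin K → Ω, (∏ l, (s l).lam (a l)) * ∑ ω : Fin K → Ω,
      (∏ l, (s l).u (a l) (ω l)) ^ 2 * φ (ω k) =
      ∑ a, (s k).lam a * ∑ o, (s k).u a o ^ 2 * φ o := by
  have h1 : ∀ a : Fin K → Ω, ∑ ω : Fin K → Ω, (∏ l, (s l).u (a l) (ω l)) ^ 2 * φ (ω k) =
      ∑ o, (s k).u (a k) o ^ 2 * φ o := by
    intro a
    simp only [← prod_pow]
    refine marg (fun l o => (s l).u (a l) o ^ 2) (fun j => ?_) k φ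
    have := (s j).u_orth (a j) (a j)
    rw [if_pos rfl] at this
    rw [← this]
    exact sum_congr rfl fun o _ => by ring
  simp only [h1]
  exact marg (fun l o => (s l).lam o) (fun l => (s l).lam_sum) k
    (fun o' => ∑ o, (s k).u o' o ^ 2 * φ o)

theorem piSite_E (s : Fin K → Site Ω X) (f : Fin K → X → ℝ) :
    (piSite s).E (fun k x => f k (x k)) = ∑ k, (s k).E (fun (_ : Unit) => f k) := by
  unfold Site.E
  rw [mul_sum]
  refine sum_congr rfl fun k _ => ?_
  have h1 := pi_moment s (fun ω => f k ((s k).pos ω) ^ 2) k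
  have h2 := pi_overlap s (fun ω => f k ((s k).pos ω)) k
  simp only [univ_unique, PUnit.default_eq_unit, sum_singleton]
  rw [← h1, ← h2]
  rfl

end Pool.Agent.H610.AbcH
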