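import Pool.Agent.H610.AbcH.Main

/-!
# Building families of one-site states
-/

set_option autoImplicit false

open Finset Filter Topology

namespace Pool.Agent.H610.AbcH

open Pool.Agent.H390R2.LP

/-- there is a family for the first `a` primes of each group with value at least `V` -/
def Reach (D : ℕ) (K1 : ℝ) (a : ℕ) (V : ℝ) : Prop := ∃ F : Fam D a K1, V ≤ F.C - F.En

/-- the value `v` can be achieved at the prime number `k` -/
def Good (D : ℕ) (K1 : ℝ) (k : ℕ) (v : ℝ) : Prop :=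
  ∃ (s : Site (Fin 3) (Fin 3)) (f : Fin 3 → ℝ), (∀ a b : Fin 3, a ≠ b →
    Real.log (((k : ℝ) + 1) / D) + K1 / 2 * (|(((a : ℕ) : ℝ) - ((b : ℕ) : ℝ))| - 1) ≤
      (f a - f b) ^ 2) ∧ v ≤ (s.h - s.S) - s.E (fun (_ : Unit) => f)

theorem reach_zero (D : ℕ) (K1 : ℝ) : Reach D K1 0 0 :=
  ⟨⟨fun k => k.elim0, fun k => k.elim0, fun k => k.elim0⟩, by simp [Fam.C, Fam.En]⟩

theorem reach_succ {D : ℕ} {K1 : ℝ} {a : ℕ} {V v : ℝ} (h : Reach D K1 a V) (hg : Good D K1 a v) :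
    Reach D K1 (a + 1) (V + v) := by
  obtain ⟨F, hF⟩ := h
  obtain ⟨s, f, hf, hv⟩ := hg
  refine ⟨⟨Fin.snoc (α := fun _ => Site (Fin 3) (Fin 3)) F.s s, Fin.snoc (α := fun _ => Fin 3 → ℝ) F.f f, ?_⟩, ?_⟩
  · intro k
    refine Fin.lastCases ?_ (fun i => ?_) k
    · simp only [Fin.snoc_last, Fin.val_last]
      exact hf
    · simp only [Fin.snoc_castSucc, Fin.val_castSucc]
      exact F.hf i
  · unfold Fam.C Fam.En at hF ⊢
    simp only [Fin.sum_univ_castSucc, Fin.snoc_castSucc, Fin.snoc_last]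
    linarith

theorem reach_sum {D : ℕ} {K1 : ℝ} {a b : ℕ} {V : ℝ} (h : Reach D K1 a V) (hab : a ≤ b) (v : ℕ → ℝ)
    (hv : ∀ k, a ≤ k → k < b → Good D K1 k (v k)) : Reach D K1 b (V + ∑ k ∈ Ico a b, v k) := by
  induction b, hab using Nat.le_induction with
  | base => simpa using h
  | succ b hb ih =>
    rw [sum_Ico_succ_top hb, ← add_assoc]
    exact reach_succ (ih fun k hk hk2 => hv k hk (by omega)) (hv b hb (by omega))

theorem reach_mono {D : ℕ} {K1 : ℝ} {a : ℕ} {V W : ℝ} (h : Reach D K1 a V) (hW : W ≤ V) :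
    Reach D K1 a W := by
  obtain ⟨F, hF⟩ := h
  exact ⟨F, hW.trans hF⟩

/-- an antiderivative of the logarithm -/
noncomputable def LL (x : ℝ) : ℝ := x * Real.log x - x

theorem LL_diff {a b : ℝ} (ha : 0 < a) (hab : a ≤ b) : Real.log a * (b - a) ≤ LL b - LL a := by
  have hb : 0 < b := ha.trans_le hab
  have h1 := Real.log_le_sub_one_of_pos (show 0 < a / b by positivity)
  rw [Real.log_div ha.ne' hb.ne'] at h1
  have h2 : b * (Real.log a - Real.log b) ≤ b * (a / b - 1) := mul_le_mul_of_nonneg_left h1 hb.le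
  have h3 : b * (a / b - 1) = a - b := by field_simp
  unfold LL
  rw [h3] at h2
  linarith

theorem sum_log_le {D a b : ℕ} (hD : 1 ≤ D) (ha : 1 ≤ a) (hab : a ≤ b) :
    ∑ k ∈ Ico a b, Real.log (((k : ℝ) + 1) / D) ≤
      D * (LL (b / D) - LL (a / D)) + (Real.log (b / D) - Real.log (a / D)) := by
  have hDR : (0 : ℝ) < D := by exact_mod_cast hD
  induction b, hab using Nat.le_induction with
  | base => simp
  | succ b hb ih =>
    rw [sum_Ico_succ_top hb]
    have hb0 : (0 : ℝ) < b := by exact_mod_cast (by omega : 0 < b)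
    have h1 := LL_diff (a := (b : ℝ) / D) (b := ((b : ℝ) + 1) / D) (by positivity)
      (div_le_div_of_nonneg_right (by linarith) hDR.le)
    have h2 : ((b : ℝ) + 1) / D - b / D = 1 / D := by ring
    rw [h2] at h1
    have h3 : Real.log ((b : ℝ) / D) ≤ D * (LL (((b : ℝ) + 1) / D) - LL ((b : ℝ) / D)) := by
      have h4 := mul_le_mul_of_nonneg_left h1 hDR.le
      have h5 : (D : ℝ) * (Real.log ((b : ℝ) / D) * (1 / D)) = Real.log ((b : ℝ) / D) := by
        field_simp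
      rwa [h5] at h4
    push_cast
    linarith

/-- the two-level state -/
theorem good_two {D : ℕ} {K1 : ℝ} (hD : 1 ≤ D) (hK : K1 ≤ 6) {k : ℕ} {q l κ : ℝ} (hq0 : 0 ≤ q) (hq1 : q ≤ 1)
    (hl0 : 0 ≤ l) (hl1 : l ≤ 1) (hκ : κ ^ 2 ≤ l * (1 - l)) (hk : D ≤ k + 1) :
    Good D K1 k (h2 (q * (1 - l) + (1 - q) * l) - h2 l -
      2 * (q * (1 - q) * (1 - 2 * κ)) * Real.log (((k : ℝ) + 1) / D)) := by
  obtain ⟨s, hs, hE⟩ := exists_two hq0 hq1 hl0 hl1
  have hDR : (0 : ℝ) < D := by exact_mod_cast hD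
  set w : ℝ := Real.log (((k : ℝ) + 1) / D) with hw
  have hw0 : 0 ≤ w := by
    apply Real.log_nonneg
    rw [le_div_iff₀ hDR, one_mul]
    exact_mod_cast hk
  have hsw : √w ^ 2 = w := Real.sq_sqrt hw0
  have hsw0 : 0 ≤ √w := Real.sqrt_nonneg _
  refine ⟨s, ![0, √w, 2 * √w + 3], ?_, ?_⟩
  · intro a b hab
    fin_cases a <;> fin_cases b <;> simp at hab ⊢ <;> (try norm_num) <;> nlinarith
  · rw [hs, hE, hsw]
    have h1 : κ ≤ √(l * (1 - l)) := Real.le_sqrt_of_sq_le hκ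
    have h2 : 0 ≤ 2 * w * (q * (1 - q)) := by
      have : 0 ≤ 1 - q := by linarith
      positivity
    nlinarith [mul_le_mul_of_nonneg_left h1 h2]

/-- the equal superposition of two levels, for primes below the threshold -/
theorem good_flat {D : ℕ} {K1 : ℝ} (hD : 1 ≤ D) (hK : K1 ≤ 6) {k : ℕ} (hk : k + 1 ≤ D) :
    Good D K1 k (Real.log 2) := by
  obtain ⟨s, hs, hE⟩ := exists_two (q := 1 / 2) (l := 0) (by norm_num) (by norm_num) le_rfl
    (by norm_num)
  have hDR : (0 : ℝ) < D := by exact_mod_cast hD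
  have hw0 : Real.log (((k : ℝ) + 1) / D) ≤ 0 := by
    apply Real.log_nonpos (by positivity)
    rw [div_le_one hDR]
    exact_mod_cast hk
  refine ⟨s, ![0, 0, 3], ?_, ?_⟩
  · intro a b hab
    fin_cases a <;> fin_cases b <;> simp at hab ⊢ <;> (try norm_num) <;> nlinarith
  · rw [hs, hE]
    have h1 : h2 (1 / 2 * (1 - 0) + (1 - 1 / 2) * 0) = Real.log 2 := by
      unfold h2 Real.negMulLog
      norm_num
      rw [show (1 / 2 : ℝ) = 2⁻¹ by norm_num, Real.log_inv]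
      ring
    have h3 : h2 0 = 0 := by unfold h2; simp
    rw [h1, h3]
    norm_num

/-- the three-level state, for small primes -/
theorem good_three {D : ℕ} {K1 : ℝ} (hD : 1 ≤ D) {k : ℕ} {α : ℝ} (h0 : 0 ≤ α) (h1 : α ≤ 1 / 2)
    (hk : k + 1 ≤ D) : Good D K1 k (2 * Real.negMulLog α + Real.negMulLog (1 - 2 * α) -
      α * max 0 (K1 / 2 + Real.log (((k : ℝ) + 1) / D))) := by
  obtain ⟨s, hs, hE⟩ := exists_three h0 h1
  have hDR : (0 : ℝ) < D := by exact_mod_cast hD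
  have hw0 : Real.log (((k : ℝ) + 1) / D) ≤ 0 := by
    apply Real.log_nonpos (by positivity)
    rw [div_le_one hDR]
    exact_mod_cast hk
  set c : ℝ := max 0 (K1 / 2 + Real.log (((k : ℝ) + 1) / D)) with hc
  have hc0 : 0 ≤ c := le_max_left _ _
  have hc1 : K1 / 2 + Real.log (((k : ℝ) + 1) / D) ≤ c := le_max_right _ _
  have hsw : √c ^ 2 = c := Real.sq_sqrt hc0
  have hsw0 : 0 ≤ √c := Real.sqrt_nonneg _
  refine ⟨s, ![0, √c / 2, 2 * (√c / 2)], ?_, ?_⟩
  · intro a b hab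
    fin_cases a <;> fin_cases b <;> simp at hab ⊢ <;> (try norm_num) <;> nlinarith
  · rw [hs, hE]
    have : 4 * α * (√c / 2) ^ 2 = α * c := by
      rw [div_pow, hsw]; ring
    rw [this]

theorem reach_two {D a b : ℕ} {K1 V V' : ℝ} (h : Reach D K1 a (D * V)) (hD : 1 ≤ D) (hK : K1 ≤ 6)
    (hDa : D ≤ a) (hab : a ≤ b) {q l κ xa xb : ℝ} (hq0 : 0 ≤ q) (hq1 : q ≤ 1)
    (hl0 : 0 ≤ l) (hl1 : l ≤ 1) (hκ : κ ^ 2 ≤ l * (1 - l)) (hκ1 : 2 * κ ≤ 1)
    (hxa : (a : ℝ) = D * xa) (hxb : (b : ℝ) = D * xb)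
    (hV : V' ≤ V + (xb - xa) * (h2 (q * (1 - l) + (1 - q) * l) - h2 l) -
      2 * (q * (1 - q) * (1 - 2 * κ)) * (LL xb - LL xa + (Real.log xb - Real.log xa) / D)) :
    Reach D K1 b (D * V') := by
  have hDR : (0 : ℝ) < D := by exact_mod_cast hD
  have h1 := reach_sum h hab (fun k => h2 (q * (1 - l) + (1 - q) * l) - h2 l -
      2 * (q * (1 - q) * (1 - 2 * κ)) * Real.log (((k : ℝ) + 1) / D))
    fun k hk _ => good_two hD hK hq0 hq1 hl0 hl1 hκ (by omega)
  refine reach_mono h1 ?_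
  have h2' := sum_log_le hD (by omega : 1 ≤ a) hab
  rw [sum_sub_distrib, sum_const, Nat.card_Ico, nsmul_eq_mul, ← mul_sum, Nat.cast_sub hab]
  have e1 : (b : ℝ) / D = xb := by rw [hxb]; field_simp
  have e2 : (a : ℝ) / D = xa := by rw [hxa]; field_simp
  rw [e1, e2] at h2'
  have hZ : 0 ≤ 2 * (q * (1 - q) * (1 - 2 * κ)) := by
    have : 0 ≤ 1 - q := by linarith
    have : 0 ≤ 1 - 2 * κ := by linarith
    positivity
  have h3 := mul_le_mul_of_nonneg_left h2' hZ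
  have h4 := mul_le_mul_of_nonneg_left hV hDR.le
  have e3 : (D : ℝ) * (V + (xb - xa) * (h2 (q * (1 - l) + (1 - q) * l) - h2 l) -
      2 * (q * (1 - q) * (1 - 2 * κ)) * (LL xb - LL xa + (Real.log xb - Real.log xa) / D)) =
      D * V + (D * xb - D * xa) * (h2 (q * (1 - l) + (1 - q) * l) - h2 l) -
      2 * (q * (1 - q) * (1 - 2 * κ)) * (D * (LL xb - LL xa) + (Real.log xb - Real.log xa)) := by
    field_simp
  rw [e3] at h4
  rw [hxa, hxb]
  linarith

theorem reach_flat {D a b : ℕ} {K1 V V' : ℝ} (h : Reach D K1 a (D * V)) (hD : 1 ≤ D) (hK : K1 ≤ 6)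
    (hab : a ≤ b) (hbD : b ≤ D) {xa xb : ℝ} (hxa : (a : ℝ) = D * xa) (hxb : (b : ℝ) = D * xb)
    (hV : V' ≤ V + (xb - xa) * Real.log 2) : Reach D K1 b (D * V') := by
  have hDR : (0 : ℝ) < D := by exact_mod_cast hD
  have h1 := reach_sum h hab (fun _ => Real.log 2) fun k _ hk => good_flat hD hK (by omega)
  refine reach_mono h1 ?_
  rw [sum_const, Nat.card_Ico, nsmul_eq_mul, Nat.cast_sub hab, hxa, hxb]
  have h4 := mul_le_mul_of_nonneg_left hV hDR.le
  linarith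

theorem reach_three {D a b : ℕ} {K1 V V' : ℝ} (h : Reach D K1 a (D * V)) (hD : 1 ≤ D)
    (ha : 1 ≤ a) (hab : a ≤ b) (hbD : b ≤ D) {α xa xb : ℝ} (h0 : 0 ≤ α) (h1 : α ≤ 1 / 2)
    (hxa : (a : ℝ) = D * xa) (hxb : (b : ℝ) = D * xb) (hpos : 0 ≤ K1 / 2 + Real.log xa)
    (hV : V' ≤ V + (xb - xa) * (2 * Real.negMulLog α + Real.negMulLog (1 - 2 * α)) -
      α * ((xb - xa) * (K1 / 2) + (LL xb - LL xa) + (Real.log xb - Real.log xa) / D)) :
    Reach D K1 b (D * V') := by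
  have hDR : (0 : ℝ) < D := by exact_mod_cast hD
  have h1 := reach_sum h hab (fun k => 2 * Real.negMulLog α + Real.negMulLog (1 - 2 * α) -
      α * (K1 / 2 + Real.log (((k : ℝ) + 1) / D))) (fun k hk hk2 => by
        have h2 := good_three (K1 := K1) hD h0 h1 (show k + 1 ≤ D by omega)
        rwa [max_eq_right] at h2
        have h3 : Real.log xa ≤ Real.log (((k : ℝ) + 1) / D) := by
          have hk' : (a : ℝ) ≤ k := by exact_mod_cast hk
          have hxa0 : 0 < xa := by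
            have : (0 : ℝ) < a := by exact_mod_cast ha
            rw [hxa] at this
            exact (pos_iff_pos_of_mul_pos this).1 hDR
          apply Real.log_le_log hxa0
          rw [le_div_iff₀ hDR]
          rw [hxa] at hk'
          linarith
        linarith)
  refine reach_mono h1 ?_
  have h2' := sum_log_le hD ha hab
  rw [sum_sub_distrib, sum_const, Nat.card_Ico, nsmul_eq_mul, ← mul_sum, sum_add_distrib, sum_const,
    Nat.card_Ico, nsmul_eq_mul, Nat.cast_sub hab]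
  have e1 : (b : ℝ) / D = xb := by rw [hxb]; field_simp
  have e2 : (a : ℝ) / D = xa := by rw [hxa]; field_simp
  rw [e1, e2] at h2'
  have h3 := mul_le_mul_of_nonneg_left h2' h0
  have h4 := mul_le_mul_of_nonneg_left hV hDR.le
  have e3 : (D : ℝ) * (V + (xb - xa) * (2 * Real.negMulLog α + Real.negMulLog (1 - 2 * α)) -
      α * ((xb - xa) * (K1 / 2) + (LL xb - LL xa) + (Real.log xb - Real.log xa) / D)) =
      D * V + (D * xb - D * xa) * (2 * Real.negMulLog α + Real.negMulLog (1 - 2 * α)) -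
      α * ((D * xb - D * xa) * (K1 / 2) + (D * (LL xb - LL xa) + (Real.log xb - Real.log xa))) := by
    field_simp
    ring
  rw [e3] at h4
  rw [hxa, hxb]
  linarith

/-- the smallest primes -/
theorem reach_start {D b : ℕ} {K1 V' : ℝ} (hD : 1 ≤ D) (hbD : b ≤ D) {xb : ℝ} (hxb : (b : ℝ) = D * xb)
    (hneg : K1 / 2 + Real.log xb ≤ 0) (hV : V' ≤ xb * Real.log 3) :
    Reach D K1 b (D * V') := by
  have hDR : (0 : ℝ) < D := by exact_mod_cast hD
  have h1 := reach_sum (reach_zero D K1) (Nat.zero_le b) (fun _ => Real.log 3) (fun k _ hk => by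
    have h2 := good_three (K1 := K1) (α := 1 / 3) hD (by norm_num) (by norm_num)
      (show k + 1 ≤ D by omega)
    rw [max_eq_left] at h2
    · have e : 2 * Real.negMulLog (1 / 3) + Real.negMulLog (1 - 2 * (1 / 3)) - 1 / 3 * 0 =
          Real.log 3 := by
        rw [show (1 - 2 * (1 / 3) : ℝ) = 1 / 3 by norm_num]
        unfold Real.negMulLog
        rw [show (1 / 3 : ℝ) = 3⁻¹ by norm_num, Real.log_inv]
        ring
      rwa [e] at h2
    · have h3 : Real.log (((k : ℝ) + 1) / D) ≤ Real.log xb := by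
        have hk' : (k : ℝ) + 1 ≤ b := by exact_mod_cast hk
        apply Real.log_le_log (by positivity)
        rw [div_le_iff₀ hDR]
        rw [hxb] at hk'
        linarith
      linarith)
  refine reach_mono h1 ?_
  rw [sum_const, Nat.card_Ico, nsmul_eq_mul, Nat.sub_zero, hxb]
  have h4 := mul_le_mul_of_nonneg_left hV hDR.le
  linarith

/-- bounds for logarithms -/
theorem log_bd {r y : ℝ} (k : ℤ) (n : ℕ) (hr : r = 2 ^ k * ((1 + y) / (1 - y))) (hy : |y| < 1) :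
    |Real.log r - (k * Real.log 2 + 2 * ∑ i ∈ range n, y ^ (2 * i + 1) / (2 * i + 1))| ≤
      2 * (|y| ^ (2 * n + 1) / (1 - y ^ 2)) := by
  have h1 := Real.sum_range_sub_log_div_le hy n
  have hy1 : 0 < 1 + y := by linarith [(abs_lt.1 hy).1]
  have hy2 : 0 < 1 - y := by linarith [(abs_lt.1 hy).2]
  have h2 : Real.log r = k * Real.log 2 + Real.log ((1 + y) / (1 - y)) := by
    rw [hr, Real.log_mul (by positivity) (by positivity), Real.log_zpow]
  rw [h2]
  have h3 : (k * Real.log 2 + Real.log ((1 + y) / (1 - y))) -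
      (k * Real.log 2 + 2 * ∑ i ∈ range n, y ^ (2 * i + 1) / (2 * i + 1)) =
      2 * (1 / 2 * Real.log ((1 + y) / (1 - y)) - ∑ i ∈ range n, y ^ (2 * i + 1) / (2 * i + 1)) := by
    ring
  rw [h3, abs_mul, abs_of_pos (by norm_num : (0 : ℝ) < 2)]
  exact mul_le_mul_of_nonneg_left h1 (by norm_num)

/-- explicit form of `reach_two` -/
theorem reach_two' {D a b : ℕ} {K1 V : ℝ} (h : Reach D K1 a (D * V)) (hD : 1 ≤ D) (hK : K1 ≤ 6)
    (hDa : D ≤ a) (hab : a ≤ b) {q l κ xa xb g : ℝ} (V' : ℝ) (hq0 : 0 ≤ q) (hq1 : q ≤ 1)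
    (hl0 : 0 ≤ l) (hl1 : l ≤ 1) (hκ : κ ^ 2 ≤ l * (1 - l)) (hκ1 : 2 * κ ≤ 1)
    (hxa : (a : ℝ) = D * xa) (hxb : (b : ℝ) = D * xb) {g' l' Z : ℝ}
    (hg : q * (1 - l) + (1 - q) * l = g) (hg' : 1 - g = g') (hl' : 1 - l = l')
    (hZ : 2 * (q * (1 - q) * (1 - 2 * κ)) = Z)
    (hV : V' ≤ V + (xb - xa) * ((-(g * Real.log g) - g' * Real.log g') -
      (-(l * Real.log l) - l' * Real.log l')) -
      Z * ((xb * Real.log xb - xb) - (xa * Real.log xa - xa) + (Real.log xb - Real.log xa) / D)) :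
    Reach D K1 b (D * V') := by
  refine reach_two (V' := V') h hD hK hDa hab hq0 hq1 hl0 hl1 hκ hκ1 hxa hxb ?_
  rw [hg, hZ]
  unfold h2 Real.negMulLog LL
  rw [hg', hl']
  linarith

/-- explicit form of `reach_three` -/
theorem reach_three' {D a b : ℕ} {K1 V : ℝ} (h : Reach D K1 a (D * V)) (hD : 1 ≤ D)
    (ha : 1 ≤ a) (hab : a ≤ b) (hbD : b ≤ D) {α xa xb : ℝ} (V' : ℝ) (h0 : 0 ≤ α) (h1 : α ≤ 1 / 2)
    (hxa : (a : ℝ) = D * xa) (hxb : (b : ℝ) = D * xb) (hpos : 0 ≤ K1 / 2 + Real.log xa) {α' : ℝ}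
    (hα : 1 - 2 * α = α')
    (hV : V' ≤ V + (xb - xa) * (-2 * (α * Real.log α) - α' * Real.log α') -
      α * ((xb - xa) * (K1 / 2) + ((xb * Real.log xb - xb) - (xa * Real.log xa - xa)) +
        (Real.log xb - Real.log xa) / D)) :
    Reach D K1 b (D * V') := by
  refine reach_three (V' := V') h hD ha hab hbD h0 h1 hxa hxb hpos ?_
  rw [hα]
  unfold Real.negMulLog LL
  linarith

end Pool.Agent.H610.AbcH
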