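import Pool.Agent.H610.AbcH.Pair
import Pool.Graph.R_pool_sql_team_seeded_64922ed1.X2.AbcH4

/-!
# Choice of the primes
-/

set_option autoImplicit false

open Finset Filter Topology

namespace Pool.Agent.H610.AbcH

theorem sel (D Kt : ℕ) (hD : 1 ≤ D) {ε : ℝ} (hε : 0 < ε) : ∀ᶠ n : ℕ in atTop, ∀ n' : ℕ,
    (n' : ℝ) ≤ (1 - ε) * ((n / Real.log n) / D) → ∃ pr : Fin n' → Fin Kt → ℕ,
      (∀ j k, (pr j k).Prime ∧ pr j k ≠ 2 ∧ (pr j k : ℝ) ≤ ((k : ℕ) + 1 : ℝ) / D * n) ∧
      Function.Injective (fun i : Fin n' × Fin Kt => pr i.1 i.2) := by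
  have hDR : (1 : ℝ) ≤ D := by exact_mod_cast hD
  have hD0 : (0 : ℝ) < D := by linarith
  set δ : ℝ := ε / (4 * Kt + 2) with hδ
  have hδ0 : 0 < δ := by positivity
  have hpnt := (Pool.Agent.TH110.Zig.pnt_window (1 / D) (Kt / D) δ (by positivity) hδ0).filter_mono
    tendsto_natCast_atTop_atTop
  rw [Filter.eventually_map] at hpnt
  filter_upwards [hpnt, Pool.Agent.X2.AbcH.tendsto_X.eventually_ge_atTop (2 * D / ε),
    eventually_gt_atTop 1] with n hn hX hn1
  intro n' hn'
  have hn0 : (1 : ℝ) < n := by exact_mod_cast hn1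
  have hl : 0 < Real.log n := Real.log_pos hn0
  set X : ℝ := (n : ℝ) / Real.log n with hXd
  have hX0 : 0 < X := by positivity
  set bd : ℕ → ℕ := fun k => ⌊((k : ℝ) / D) * n⌋₊ with hbd
  have hbdmono : ∀ {k l : ℕ}, k ≤ l → bd k ≤ bd l := by
    intro k l hkl
    apply Nat.floor_mono
    have : (k : ℝ) ≤ l := by exact_mod_cast hkl
    gcongr
  set S : Fin Kt → Finset ℕ := fun k => (Ioc (bd k) (bd (k + 1))).filter fun p => p.Prime ∧ p ≠ 2
    with hS
  have hcard : ∀ k : Fin Kt, n' ≤ (S k).card := by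
    intro k
    have hk : (k : ℕ) + 1 ≤ Kt := k.2
    have hkR : ((k : ℕ) : ℝ) + 1 ≤ Kt := by exact_mod_cast hk
    have hk0 : (0 : ℝ) ≤ ((k : ℕ) : ℝ) := Nat.cast_nonneg _
    have h1 := hn ((((k : ℕ) : ℝ) + 1) / D * n)
      (by
        rw [div_mul_eq_mul_div, div_mul_eq_mul_div]
        apply div_le_div_of_nonneg_right _ hD0.le
        nlinarith)
      (by
        rw [div_mul_eq_mul_div, div_mul_eq_mul_div]
        apply div_le_div_of_nonneg_right _ hD0.le
        nlinarith)
    have e1 : (((k : ℕ) : ℝ) + 1) / D * n / Real.log n = (((k : ℕ) : ℝ) + 1) * (X / D) := by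
      rw [hXd]; field_simp
    rw [e1] at h1
    have hup : (1 - δ) * ((((k : ℕ) : ℝ) + 1) * (X / D)) ≤
        (Nat.primeCounting (bd (k + 1)) : ℝ) := by
      have : bd (k + 1) = ⌊(((k : ℕ) : ℝ) + 1) / D * n⌋₊ := by
        simp only [hbd]; push_cast; rfl
      rw [this]
      have := (abs_le.1 h1).1
      linarith
    have hlow : (Nat.primeCounting (bd k) : ℝ) ≤ (1 + δ) * (((k : ℕ) : ℝ) * (X / D)) := by
      rcases Nat.eq_zero_or_pos (k : ℕ) with h0 | h0
      · have : bd k = 0 := by simp [hbd, h0]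
        rw [this, h0]
        simp
      · have h0' : (1 : ℝ) ≤ ((k : ℕ) : ℝ) := by exact_mod_cast h0
        have h2 := hn (((k : ℕ) : ℝ) / D * n)
          (by
            rw [div_mul_eq_mul_div, div_mul_eq_mul_div]
            apply div_le_div_of_nonneg_right _ hD0.le
            nlinarith)
          (by
            rw [div_mul_eq_mul_div, div_mul_eq_mul_div]
            apply div_le_div_of_nonneg_right _ hD0.le
            nlinarith)
        have e2 : ((k : ℕ) : ℝ) / D * n / Real.log n = ((k : ℕ) : ℝ) * (X / D) := by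
          rw [hXd]; field_simp
        rw [e2] at h2
        have := (abs_le.1 h2).2
        simp only [hbd]
        linarith
    -- the number of primes in the window
    have h3 : Nat.primeCounting (bd (k + 1)) ≤ Nat.primeCounting (bd k) + ((S k).card + 1) := by
      rw [Nat.primeCounting, Nat.primeCounting', Nat.primeCounting, Nat.primeCounting',
        Nat.count_eq_card_filter_range, Nat.count_eq_card_filter_range]
      have h4 : (range (bd (k + 1) + 1)).filter Nat.Prime ⊆
          (range (bd k + 1)).filter Nat.Prime ∪ insert 2 (S k) := by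
        intro p hp
        rw [mem_filter, mem_range] at hp
        rw [mem_union, mem_insert, mem_filter, mem_range]
        by_cases h5 : p < bd k + 1
        · exact Or.inl ⟨h5, hp.2⟩
        right
        by_cases h6 : p = 2
        · exact Or.inl h6
        right
        simp only [hS, mem_filter, mem_Ioc]
        exact ⟨⟨by omega, by omega⟩, hp.2, h6⟩
      refine (card_le_card h4).trans ((card_union_le _ _).trans ?_)
      refine Nat.add_le_add (le_of_eq ?_) (card_insert_le 2 (S k))
      congr!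
    have h3' : (Nat.primeCounting (bd (k + 1)) : ℝ) ≤ Nat.primeCounting (bd k) + ((S k).card + 1) := by
      exact_mod_cast h3
    have h5 : δ * (2 * ((k : ℕ) : ℝ) + 1) ≤ ε / 2 := by
      rw [hδ, div_mul_eq_mul_div, div_le_div_iff₀ (by positivity) (by norm_num)]
      nlinarith
    have hXD : 0 < X / D := by positivity
    have h6 : δ * (2 * ((k : ℕ) : ℝ) + 1) * (X / D) ≤ ε / 2 * (X / D) :=
      mul_le_mul_of_nonneg_right h5 hXD.le
    have h7 : 1 ≤ ε / 2 * (X / D) := by
      rw [div_le_iff₀ hε] at hX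
      rw [div_mul_div_comm, le_div_iff₀ (by positivity)]
      linarith
    have h8 : (n' : ℝ) ≤ (S k).card := by
      have : (1 - δ) * ((((k : ℕ) : ℝ) + 1) * (X / D)) - (1 + δ) * (((k : ℕ) : ℝ) * (X / D)) =
          X / D - δ * (2 * ((k : ℕ) : ℝ) + 1) * (X / D) := by ring
      have h9 : (1 - ε) * (X / D) = X / D - ε / 2 * (X / D) - ε / 2 * (X / D) := by ring
      linarith
    exact_mod_cast h8
  have hemb : ∀ k : Fin Kt, Nonempty (Fin n' ↪ S k) := by
    intro k
    apply Function.Embedding.nonempty_of_card_le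
    rw [Fintype.card_fin, Fintype.card_coe]
    exact hcard k
  obtain ⟨em⟩ : Nonempty (∀ k : Fin Kt, Fin n' ↪ S k) := ⟨fun k => (hemb k).some⟩
  refine ⟨fun j k => (em k j : ℕ), ?_, ?_⟩
  · intro j k
    have h1 := (em k j).2
    simp only [hS, mem_filter, mem_Ioc] at h1
    refine ⟨h1.2.1, h1.2.2, ?_⟩
    have h2 : ((em k j : ℕ) : ℝ) ≤ (bd (k + 1) : ℕ) := by exact_mod_cast h1.1.2
    refine h2.trans ?_
    simp only [hbd]
    refine (Nat.floor_le (by positivity)).trans (le_of_eq ?_)
    push_cast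
    rfl
  · rintro ⟨j, k⟩ ⟨j', k'⟩ h
    simp only at h
    have h1 := (em k j).2
    have h2 := (em k' j').2
    simp only [hS, mem_filter, mem_Ioc] at h1 h2
    have hkk : k = k' := by
      rcases lt_trichotomy k k' with h3 | h3 | h3
      · have h4 : bd (k + 1) ≤ bd k' := hbdmono (by exact h3)
        omega
      · exact h3
      · have h4 : bd (k' + 1) ≤ bd k := hbdmono (by exact h3)
        omega
    subst hkk
    have h5 : em k j = em k j' := Subtype.ext h
    rw [(em k).injective h5]

end Pool.Agent.H610.AbcH
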