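import Pool.Agent.H610.AbcH.PiSite

/-!
# Explicit one-site states on three levels
-/

set_option autoImplicit false

open Finset

namespace Pool.Agent.H610.AbcH

open Pool.Agent.H390R2.LP

/-- a state without degeneracy: the positions are the basis states -/
noncomputable def ndSite {q : ℕ} (u : Fin q → Fin q → ℝ) (lam : Fin q → ℝ)
    (hu : ∀ a b, ∑ ω, u a ω * u b ω = if a = b then 1 else 0) (h0 : ∀ a, 0 ≤ lam a)
    (h1 : ∑ a, lam a = 1) : Site (Fin q) (Fin q) where
  pos := id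
  u := u
  w c ω := if c = ω then 1 else 0
  lam := lam
  g c := ∑ a, lam a * u a c ^ 2
  lab := id
  u_orth := hu
  w_orth := by
    intro a b
    simp
  lam_nonneg := h0
  lam_sum := h1
  w_supp := by
    intro c ω h
    simp only [id] at h
    rw [if_neg (Ne.symm h)]
  w_diag := by
    intro c c' h
    simp only [id] at h
    subst h
    simp only [mul_ite, mul_one, mul_zero, sum_ite_eq, mem_univ, if_true]
    exact sum_congr rfl fun a _ => by ring

/-- binary entropy in the form needed here -/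
noncomputable def h2 (x : ℝ) : ℝ := Real.negMulLog x + Real.negMulLog (1 - x)

/-- the two-level state with parameters `q`, `lam`; the third level is not used -/
theorem exists_two {q l : ℝ} (hq0 : 0 ≤ q) (hq1 : q ≤ 1) (hl0 : 0 ≤ l) (hl1 : l ≤ 1) :
    ∃ s : Site (Fin 3) (Fin 3), s.h - s.S = h2 (q * (1 - l) + (1 - q) * l) - h2 l ∧
      ∀ t B : ℝ, s.E (fun (_ : Unit) => ![0, t, B]) =
        2 * t ^ 2 * (q * (1 - q) * (1 - 2 * √(l * (1 - l)))) := by
  set c : ℝ := √(1 - q) with hc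
  set s : ℝ := √q with hs
  have hc2 : c ^ 2 = 1 - q := Real.sq_sqrt (by linarith)
  have hs2 : s ^ 2 = q := Real.sq_sqrt hq0
  set u : Fin 3 → Fin 3 → ℝ := ![![c, s, 0], ![-s, c, 0], ![0, 0, 1]] with hu
  set lam : Fin 3 → ℝ := ![1 - l, l, 0] with hlam
  have hu1 : ∀ a b, ∑ ω, u a ω * u b ω = if a = b then 1 else 0 := by
    intro a b
    fin_cases a <;> fin_cases b <;> simp [hu, Fin.sum_univ_three] <;> nlinarith
  have h0 : ∀ a, 0 ≤ lam a := by
    intro a
    fin_cases a <;> simp [hlam] <;> linarith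
  have h1 : ∑ a, lam a = 1 := by
    simp [hlam, Fin.sum_univ_three]
  refine ⟨ndSite u lam hu1 h0 h1, ?_, ?_⟩
  · have e1 : (ndSite u lam hu1 h0 h1).S = h2 l := by
      show ∑ a, Real.negMulLog (lam a) = _
      simp [hlam, Fin.sum_univ_three, h2]
      ring
    have e2 : (ndSite u lam hu1 h0 h1).h = h2 (q * (1 - l) + (1 - q) * l) := by
      show ∑ c, Real.negMulLog (∑ a, lam a * u a c ^ 2) = _
      have a0 : ∑ a, lam a * u a 0 ^ 2 = 1 - (q * (1 - l) + (1 - q) * l) := by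
        simp [hlam, hu, Fin.sum_univ_three]
        rw [hc2, hs2]; ring
      have a1 : ∑ a, lam a * u a 1 ^ 2 = q * (1 - l) + (1 - q) * l := by
        simp [hlam, hu, Fin.sum_univ_three]
        rw [hc2, hs2]; ring
      have a2 : ∑ a, lam a * u a 2 ^ 2 = 0 := by
        simp [hlam, hu, Fin.sum_univ_three]
      rw [Fin.sum_univ_three, a0, a1, a2, Real.negMulLog_zero]
      unfold h2
      ring
    rw [e1, e2]
  · intro t B
    have hk : √((1 - l) * l) = √(l * (1 - l)) := by rw [mul_comm]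
    have hll : √(l * l) = l := Real.sqrt_mul_self hl0
    have hll1 : √((1 - l) * (1 - l)) = 1 - l := Real.sqrt_mul_self (by linarith)
    show 2 * ∑ i : Unit, (∑ a, lam a * ∑ ω, u a ω ^ 2 * (![0, t, B] : Fin 3 → ℝ) ω ^ 2
      - ∑ a, ∑ b, √(lam a * lam b) * (∑ ω, u a ω * (![0, t, B] : Fin 3 → ℝ) ω * u b ω) ^ 2) = _
    simp [hlam, hu, Fin.sum_univ_three]
    rw [hk, hll, hll1]
    have e1 : (s * t * s) ^ 2 = t ^ 2 * q ^ 2 := by rw [← hs2]; ring
    have e2 : (c * t * c) ^ 2 = t ^ 2 * (1 - q) ^ 2 := by rw [← hc2]; ring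
    have e3 : (s * t * c) ^ 2 = t ^ 2 * (q * (1 - q)) := by rw [← hc2, ← hs2]; ring
    have e4 : (c * t * s) ^ 2 = t ^ 2 * (q * (1 - q)) := by rw [← hc2, ← hs2]; ring
    rw [e1, e2, e3, e4, hs2, hc2]
    ring

/-- the pure three-level state with probabilities `α, 1 - 2 α, α` -/
theorem exists_three {α : ℝ} (h0 : 0 ≤ α) (h1 : α ≤ 1 / 2) :
    ∃ s : Site (Fin 3) (Fin 3),
      s.h - s.S = 2 * Real.negMulLog α + Real.negMulLog (1 - 2 * α) ∧
      ∀ t : ℝ, s.E (fun (_ : Unit) => ![0, t, 2 * t]) = 4 * α * t ^ 2 := by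
  set a : ℝ := √α with ha
  set b : ℝ := √(1 - 2 * α) with hb
  set r : ℝ := √2 with hr
  have ha2 : a ^ 2 = α := Real.sq_sqrt h0
  have hb2 : b ^ 2 = 1 - 2 * α := Real.sq_sqrt (by linarith)
  have hr2 : r ^ 2 = 2 := Real.sq_sqrt (by norm_num)
  have hr0 : 0 < r := Real.sqrt_pos.2 (by norm_num)
  set u : Fin 3 → Fin 3 → ℝ := ![![a, b, a], ![r / 2, 0, -(r / 2)], ![b * (r / 2), -(a * r), b * (r / 2)]]
    with hu
  set lam : Fin 3 → ℝ := ![1, 0, 0] with hlam
  have hu1 : ∀ a b, ∑ ω, u a ω * u b ω = if a = b then 1 else 0 := by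
    intro i j
    fin_cases i <;> fin_cases j <;> simp [hu, Fin.sum_univ_three] <;> nlinarith
  have h0' : ∀ a, 0 ≤ lam a := by
    intro a
    fin_cases a <;> simp [hlam]
  have h1' : ∑ a, lam a = 1 := by
    simp [hlam, Fin.sum_univ_three]
  refine ⟨ndSite u lam hu1 h0' h1', ?_, ?_⟩
  · have e1 : (ndSite u lam hu1 h0' h1').S = 0 := by
      show ∑ a, Real.negMulLog (lam a) = _
      simp [hlam, Fin.sum_univ_three]
    have e2 : (ndSite u lam hu1 h0' h1').h = 2 * Real.negMulLog α + Real.negMulLog (1 - 2 * α) := by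
      show ∑ c, Real.negMulLog (∑ a, lam a * u a c ^ 2) = _
      simp [hlam, hu, Fin.sum_univ_three]
      rw [ha2, hb2]
      ring
    rw [e1, e2, sub_zero]
  · intro t
    show 2 * ∑ i : Unit, (∑ a, lam a * ∑ ω, u a ω ^ 2 * (![0, t, 2 * t] : Fin 3 → ℝ) ω ^ 2
      - ∑ a, ∑ b, √(lam a * lam b) * (∑ ω, u a ω * (![0, t, 2 * t] : Fin 3 → ℝ) ω * u b ω) ^ 2) = _
    simp [hlam, hu, Fin.sum_univ_three]
    have e1 : b * t * b + a * (2 * t) * a = t := by
      have : b * t * b + a * (2 * t) * a = t * (b ^ 2 + 2 * a ^ 2) := by ring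
      rw [this, ha2, hb2]; ring
    rw [e1, ha2, hb2]
    ring

end Pool.Agent.H610.AbcH
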